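import Pool.Agent.Q107.Tri.Count

/-!
The rank inequality behind the partition theorem.
-/

namespace Pool.Agent.Q107.Tri

open Finset

set_option linter.unusedSectionVars false

variable {α V : Type*} [DecidableEq α] [DecidableEq V]

/-- the contraction map identifying `v` with `u` -/
def cm (u v : V) (w : V) : V := if w = v then u else w

/-- ends after contraction -/
def ctr (en : α → Finset V) (u v : V) (a : α) : Finset V := (en a).image (cm u v)

structure Ctx (en : α → Finset V) (u v : V) (e : α) : Prop where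
  huv : u ≠ v
  he : en e = {u, v}
  h2 : ∀ a, (en a).card = 2
  inj : Function.Injective en
  sp : ∀ X : Finset V, 3 ≤ X.card → ∀ S : Finset α, (∀ a ∈ S, en a ⊆ X) → S.card + 6 ≤ 3 * X.card

theorem cm_inj {u v x y : V} (h : cm u v x = cm u v y) (hxy : x ≠ y) :
    (x = u ∨ x = v) ∧ (y = u ∨ y = v) ∧ (x = v ∨ y = v) := by
  unfold cm at h
  split_ifs at h with h1 h2 h2
  · exact absurd (h1.trans h2.symm) hxy
  · exact ⟨Or.inr h1, Or.inl h.symm, Or.inl h1⟩
  · exact ⟨Or.inl h, Or.inr h2, Or.inr h2⟩
  · exact absurd h hxy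

theorem cm_injOn {u v : V} {X : Finset V} (h : ¬ (u ∈ X ∧ v ∈ X)) :
    Set.InjOn (cm u v) (X : Set V) := by
  intro x hx y hy hxy
  by_contra hne
  obtain ⟨h1, h2, h3⟩ := cm_inj hxy hne
  apply h
  rcases h1 with rfl | rfl
  · rcases h2 with rfl | rfl
    · exact absurd rfl hne
    · exact ⟨hx, hy⟩
  · rcases h2 with rfl | rfl
    · exact ⟨hy, hx⟩
    · exact absurd rfl hne

variable {en : α → Finset V} {u v : V} {e : α}

theorem Ctx.ne_of (h : Ctx en u v e) {a : α} (ha : a ≠ e) : ¬ (u ∈ en a ∧ v ∈ en a) := by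
  rintro ⟨h1, h2⟩
  apply ha
  apply h.inj
  rw [h.he]
  refine (eq_of_subset_of_card_le ?_ ?_).symm
  · intro w hw
    rw [mem_insert, mem_singleton] at hw
    rcases hw with rfl | rfl
    · exact h1
    · exact h2
  · rw [h.h2 a, card_pair h.huv]

theorem Ctx.card_ctr (h : Ctx en u v e) {a : α} (ha : a ≠ e) : (ctr en u v a).card = 2 := by
  unfold ctr
  rw [card_image_of_injOn (cm_injOn (h.ne_of ha)), h.h2 a]

theorem Ctx.pr (h : Ctx en u v e) (T : Finset α) : Pr en T := fun a _ => h.h2 a

theorem Ctx.pr' (h : Ctx en u v e) {T : Finset α} (hT : e ∉ T) : Pr (ctr en u v) T :=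
  fun a ha => h.card_ctr (fun hh => hT (hh ▸ ha))

theorem ctr_subset {a : α} {X : Finset V} (h : en a ⊆ X) : ctr en u v a ⊆ X.image (cm u v) :=
  image_subset_image h

theorem subset_of_ctr {a : α} {Y : Finset V} (h : ctr en u v a ⊆ Y) : en a ⊆ insert v Y := by
  intro w hw
  have h1 : cm u v w ∈ Y := h (mem_image_of_mem _ hw)
  unfold cm at h1
  split_ifs at h1 with h2
  · exact mem_insert.2 (Or.inl h2)
  · exact mem_insert_of_mem h1

theorem subset_of_ctr' {a : α} {Y : Finset V} (h : ctr en u v a ⊆ Y) (hu : u ∉ Y) : en a ⊆ Y := by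
  intro w hw
  have h1 : cm u v w ∈ Y := h (mem_image_of_mem _ hw)
  unfold cm at h1
  split_ifs at h1 with h2
  · exact absurd h1 hu
  · exact h1

/-- lifting sparse sets -/
theorem Ctx.lift (h : Ctx en u v e) {J : Finset α} (heJ : e ∉ J) (hJ : Sp (ctr en u v) J) :
    Sp en (insert e J) := by
  intro X hX
  have h0 : ins en J X ⊆ ins (ctr en u v) J (X.image (cm u v)) := by
    intro a ha
    rw [mem_ins] at ha ⊢
    exact ⟨ha.1, ctr_subset ha.2⟩
  have h0' := card_le_card h0
  by_cases huv : u ∈ X ∧ v ∈ X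
  · have h1 : (ins en (insert e J) X).card ≤ (ins en J X).card + 1 := by
      unfold ins
      rw [filter_insert]
      split_ifs
      · exact card_insert_le _ _
      · exact Nat.le_succ _
    have h2 : (X.image (cm u v)) ⊆ X.erase v := by
      intro w hw
      obtain ⟨x, hx, rfl⟩ := mem_image.1 hw
      unfold cm
      split_ifs with hxv
      · exact mem_erase.2 ⟨h.huv, huv.1⟩
      · exact mem_erase.2 ⟨hxv, hx⟩
    have h3 := card_erase_add_one huv.2
    have h4 : ins (ctr en u v) J (X.image (cm u v)) ⊆ ins (ctr en u v) J (X.erase v) :=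
      ins_mono_right J h2
    have h5 := card_le_card h4
    by_cases h6 : 2 ≤ (X.erase v).card
    · have := hJ _ h6
      omega
    · have h7 : ins (ctr en u v) J (X.erase v) = ∅ := by
        rw [eq_empty_iff_forall_notMem]
        intro a ha
        rw [mem_ins] at ha
        have h8 := card_le_card ha.2
        rw [h.card_ctr (fun hh => heJ (hh ▸ ha.1))] at h8
        exact h6 h8
      rw [h7, card_empty] at h5
      omega
  · have h1 : ins en (insert e J) X = ins en J X := by
      unfold ins
      rw [filter_insert, if_neg]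
      intro hh
      rw [h.he] at hh
      exact huv ⟨hh (by simp), hh (by simp)⟩
    have h2 : (X.image (cm u v)).card = X.card := card_image_of_injOn (cm_injOn huv)
    have h3 := hJ (X.image (cm u v)) (by rw [h2]; exact hX)
    rw [h1]
    omega

/-- projecting sparse sets -/
theorem Ctx.proj (h : Ctx en u v e) {J : Finset α} (hJ : Sp en J) {X : Finset V}
    (hJX : ∀ a ∈ J, en a ⊆ X) (huv : ¬ (u ∈ X ∧ v ∈ X)) : Sp (ctr en u v) J := by
  intro Y hY
  set Z : Finset V := X.filter (fun w => cm u v w ∈ Y) with hZ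
  have h1 : ins (ctr en u v) J Y ⊆ ins en J Z := by
    intro a ha
    rw [mem_ins] at ha ⊢
    refine ⟨ha.1, fun w hw => mem_filter.2 ⟨hJX a ha.1 hw, ha.2 (mem_image_of_mem _ hw)⟩⟩
  have h2 : Z.card ≤ Y.card := by
    refine card_le_card_of_injOn (cm u v) (fun w hw => (mem_filter.1 hw).2) ?_
    exact (cm_injOn huv).mono (fun w hw => (mem_filter.1 hw).1)
  have h3 := card_le_card h1
  by_cases h4 : 2 ≤ Z.card
  · have := hJ Z h4
    omega
  · have h5 : ins en J Z = ∅ := by
      rw [eq_empty_iff_forall_notMem]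
      intro a ha
      rw [mem_ins] at ha
      have h8 := card_le_card ha.2
      rw [h.h2 a] at h8
      exact h4 h8
    rw [h5, card_empty] at h3
    omega

theorem Ctx.rk_lift (h : Ctx en u v e) {T : Finset α} (heT : e ∉ T) :
    rk (ctr en u v) T + 1 ≤ rk en (insert e T) := by
  obtain ⟨J, hJ, hs, hc⟩ := exists_rk (ctr en u v) T
  have heJ : e ∉ J := fun hh => heT (hJ hh)
  have := le_rk (insert_subset_insert e hJ) (h.lift heJ hs)
  rw [card_insert_of_notMem heJ] at this
  omega

/-- rank of a set of members inside `X` -/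
theorem rk_le_of_inside {T : Finset α} {X : Finset V} (hX : 2 ≤ X.card) (hT : ∀ a ∈ T, en a ⊆ X) :
    rk en T + 3 ≤ 2 * X.card := by
  obtain ⟨J, hJ, hs, hc⟩ := exists_rk en T
  have h1 := hs X hX
  have h2 : ins en J X = J := by
    unfold ins
    exact filter_true_of_mem (fun a ha => hT a (hJ ha))
  rw [h2] at h1
  omega

/-- density: `3 rk A ≥ 2 |A| + 2` when `|A| ≥ 2` -/
theorem Ctx.dens (h : Ctx en u v e) {A : Finset α} (hA : 2 ≤ A.card) :
    2 * A.card + 2 ≤ 3 * rk en A := by
  obtain ⟨I, _, hI⟩ := exists_maxl (T := A) (J := ∅) (empty_subset _) (sp_empty (en := en))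
  obtain ⟨φ, hφ⟩ := hI.exists_blk (h.pr A)
  rw [hI.rk_eq (h.pr A)]
  have h1 := hφ.card_eq (subset_refl A)
  have h2 := hφ.card_eq hI.1
  -- each block
  have h3 : ∀ X ∈ A.image φ, 2 * (ins en A X).card + 1 ≤ 3 * (ins en I X).card ∧
      (2 ≤ (ins en A X).card → 2 * (ins en A X).card + 2 ≤ 3 * (ins en I X).card) := by
    intro X hX
    obtain ⟨q, hq, rfl⟩ := mem_image.1 hX
    have h4 := (hφ q hq).1
    by_cases h5 : 3 ≤ (φ q).card
    · have h6 := h.sp _ h5 (ins en A (φ q)) (fun a ha => (mem_ins.1 ha).2)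
      have h7 := h4.2
      constructor
      · omega
      · intro _; omega
    · have h6 : (φ q).card = 2 := by have := h4.1; omega
      have h7 : (ins en A (φ q)).card ≤ 1 := by
        rw [card_le_one]
        intro a ha b hb
        rw [mem_ins] at ha hb
        apply h.inj
        rw [eq_of_subset_of_card_le ha.2 (by rw [h6, h.h2]),
          eq_of_subset_of_card_le hb.2 (by rw [h6, h.h2])]
      have h8 := h4.2
      constructor
      · omega
      · intro _; omega
  by_cases hcard : 2 ≤ (A.image φ).card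
  · have h4 : ∑ X ∈ A.image φ, (2 * (ins en A X).card + 1) ≤
        ∑ X ∈ A.image φ, 3 * (ins en I X).card := sum_le_sum fun X hX => (h3 X hX).1
    rw [sum_add_distrib, ← mul_sum, ← mul_sum, ← h1, ← h2, sum_const, smul_eq_mul, mul_one] at h4
    omega
  · have hne : (A.image φ).Nonempty := by
      rw [image_nonempty]
      exact card_pos.1 (by omega)
    have h4 : (A.image φ).card = 1 := by
      have := card_pos.2 hne
      omega
    obtain ⟨X, hX⟩ := card_eq_one.1 h4
    rw [hX, sum_singleton] at h1 h2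
    have := (h3 X (by rw [hX]; exact mem_singleton_self X)).2 (by omega)
    omega

end Pool.Agent.Q107.Tri
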