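import Mathlib

/-!
The `(2,3)`-count matroid of a labelled family of pairs of vertices.
-/

namespace Pool.Agent.Q107.Tri

set_option linter.unusedSectionVars false

open Finset

variable {α V : Type*} [DecidableEq α] [DecidableEq V]

/-- members of `J` inside `X` -/
def ins (en : α → Finset V) (J : Finset α) (X : Finset V) : Finset α :=
  J.filter (fun a => en a ⊆ X)

/-- `(2,3)`-sparse -/
def Sp (en : α → Finset V) (J : Finset α) : Prop :=
  ∀ X : Finset V, 2 ≤ X.card → (ins en J X).card + 3 ≤ 2 * X.card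

/-- tight sets -/
def Tt (en : α → Finset V) (J : Finset α) (X : Finset V) : Prop :=
  2 ≤ X.card ∧ (ins en J X).card + 3 = 2 * X.card

/-- all members have two ends -/
def Pr (en : α → Finset V) (T : Finset α) : Prop := ∀ a ∈ T, (en a).card = 2

variable {en : α → Finset V}

theorem mem_ins {J : Finset α} {X : Finset V} {a : α} : a ∈ ins en J X ↔ a ∈ J ∧ en a ⊆ X := by
  unfold ins; rw [mem_filter]

theorem ins_mono {I J : Finset α} (h : I ⊆ J) (X : Finset V) : ins en I X ⊆ ins en J X :=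
  filter_subset_filter _ h

theorem ins_subset (J : Finset α) (X : Finset V) : ins en J X ⊆ J := filter_subset _ _

theorem ins_mono_right (J : Finset α) {X Y : Finset V} (h : X ⊆ Y) : ins en J X ⊆ ins en J Y := by
  intro a ha
  rw [mem_ins] at ha ⊢
  exact ⟨ha.1, ha.2.trans h⟩

theorem Sp.mono {I J : Finset α} (hJ : Sp en J) (h : I ⊆ J) : Sp en I := fun X hX =>
  (Nat.add_le_add_right (card_le_card (ins_mono h X)) 3).trans (hJ X hX)

theorem Pr.mono {I J : Finset α} (hJ : Pr en J) (h : I ⊆ J) : Pr en I := fun a ha => hJ a (h ha)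

theorem ins_submod (I : Finset α) (X Y : Finset V) :
    (ins en I X).card + (ins en I Y).card ≤ (ins en I (X ∪ Y)).card + (ins en I (X ∩ Y)).card := by
  rw [← card_union_add_card_inter]
  refine Nat.add_le_add (card_le_card ?_) (card_le_card ?_)
  · intro p hp
    rw [mem_union, mem_ins, mem_ins] at hp
    rw [mem_ins]
    rcases hp with ⟨h1, h2⟩ | ⟨h1, h2⟩
    · exact ⟨h1, h2.trans subset_union_left⟩
    · exact ⟨h1, h2.trans subset_union_right⟩
  · intro p hp
    rw [mem_inter, mem_ins, mem_ins] at hp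
    rw [mem_ins]
    exact ⟨hp.1.1, subset_inter hp.1.2 hp.2.2⟩

theorem Tt.union {I : Finset α} (hI : Sp en I) {X Y : Finset V} (hX : Tt en I X)
    (hY : Tt en I Y) (h : 2 ≤ (X ∩ Y).card) : Tt en I (X ∪ Y) := by
  have h1 := ins_submod (en := en) I X Y
  have h2 := hI (X ∩ Y) h
  have h3 : 2 ≤ (X ∪ Y).card := hX.1.trans (card_le_card subset_union_left)
  have h4 := hI (X ∪ Y) h3
  have h5 := card_union_add_card_inter X Y
  have h6 := hX.2
  have h7 := hY.2
  exact ⟨h3, by omega⟩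

theorem tt_self {I : Finset α} (hI : Sp en I) {a : α} (ha : a ∈ I)
    (hc : (en a).card = 2) : Tt en I (en a) := by
  refine ⟨hc.ge, ?_⟩
  have h1 := hI (en a) hc.ge
  have h2 : 1 ≤ (ins en I (en a)).card := card_pos.2 ⟨a, mem_ins.2 ⟨ha, subset_rfl⟩⟩
  omega

theorem exists_tt_of_not_sp {I : Finset α} (hI : Sp en I) {a : α}
    (h : ¬ Sp en (insert a I)) : ∃ X, Tt en I X ∧ en a ⊆ X := by
  unfold Sp at h
  push Not at h
  obtain ⟨X, hX, h⟩ := h
  have h1 := hI X hX
  have hpX : en a ⊆ X := by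
    by_contra hn
    have : ins en (insert a I) X = ins en I X := by
      unfold ins
      rw [filter_insert, if_neg hn]
    rw [this] at h
    omega
  refine ⟨X, ⟨hX, ?_⟩, hpX⟩
  have h2 : (ins en (insert a I) X).card ≤ (ins en I X).card + 1 := by
    unfold ins
    rw [filter_insert, if_pos hpX]
    exact card_insert_le _ _
  omega

/-- maximal independent subset -/
def Maxl (en : α → Finset V) (T I : Finset α) : Prop :=
  I ⊆ T ∧ Sp en I ∧ ∀ p ∈ T, p ∉ I → ¬ Sp en (insert p I)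

theorem exists_maxl {T J : Finset α} (hJ : J ⊆ T) (hs : Sp en J) :
    ∃ I, J ⊆ I ∧ Maxl en T I := by
  classical
  obtain ⟨I, hI, hmax⟩ := exists_max_image
    (T.powerset.filter (fun I => J ⊆ I ∧ Sp en I)) card ⟨J, by simp [hJ, hs]⟩
  simp only [mem_filter, mem_powerset] at hI hmax
  refine ⟨I, hI.2.1, hI.1, hI.2.2, fun p hp hpI hsp => ?_⟩
  have := hmax (insert p I) ⟨insert_subset hp hI.1, hI.2.1.trans (subset_insert _ _),
    hsp⟩
  rw [card_insert_of_notMem hpI] at this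
  omega

theorem Maxl.exists_tt {T I : Finset α} (h : Maxl en T I) (hT : Pr en T) {p : α}
    (hp : p ∈ T) : ∃ X, Tt en I X ∧ en p ⊆ X := by
  by_cases hpI : p ∈ I
  · exact ⟨en p, tt_self h.2.1 hpI (hT p hp), subset_rfl⟩
  · exact exists_tt_of_not_sp h.2.1 (h.2.2 p hp hpI)

/-- there is a largest tight set containing a given pair -/
theorem exists_largest {I : Finset α} (hI : Sp en I) {p : Finset V} (hp : p.card = 2)
    (h : ∃ X, Tt en I X ∧ p ⊆ X) :
    ∃ X, Tt en I X ∧ p ⊆ X ∧ ∀ Y, Tt en I Y → p ⊆ Y → Y ⊆ X := by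
  classical
  have hb : ∀ X, Tt en I X → X.card ≤ I.card + 3 := by
    intro X hX
    have h1 : (ins en I X).card ≤ I.card := card_filter_le _ _
    have h2 := hX.2
    have h3 := hX.1
    omega
  obtain ⟨X, hX, hmax⟩ : ∃ X, (Tt en I X ∧ p ⊆ X) ∧ ∀ Y, Tt en I Y ∧ p ⊆ Y → Y.card ≤ X.card := by
    by_contra hcon
    push Not at hcon
    have : ∀ n : ℕ, ∃ X, (Tt en I X ∧ p ⊆ X) ∧ n ≤ X.card := by
      intro n
      induction n with
      | zero =>
        obtain ⟨X, hX⟩ := h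
        exact ⟨X, hX, Nat.zero_le _⟩
      | succ n ih =>
        obtain ⟨X, hX, hn⟩ := ih
        obtain ⟨Y, hY, hlt⟩ := hcon X hX
        exact ⟨Y, hY, by omega⟩
    obtain ⟨X, hX, hn⟩ := this (I.card + 4)
    have := hb X hX.1
    omega
  refine ⟨X, hX.1, hX.2, fun Y hY hpY => ?_⟩
  have h1 : 2 ≤ (X ∩ Y).card := by
    rw [← hp]
    exact card_le_card (subset_inter hX.2 hpY)
  have h2 := hX.1.union hI hY h1
  have h3 := hmax (X ∪ Y) ⟨h2, hX.2.trans subset_union_left⟩
  have h4 : X ∪ Y = X := (eq_of_subset_of_card_le subset_union_left h3).symm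
  rw [← h4]
  exact subset_union_right

/-- block functions -/
def Blk (en : α → Finset V) (T I : Finset α) (φ : α → Finset V) : Prop :=
  ∀ a ∈ T, Tt en I (φ a) ∧ en a ⊆ φ a ∧ ∀ Y, Tt en I Y → en a ⊆ Y → Y ⊆ φ a

theorem Maxl.exists_blk {T I : Finset α} (h : Maxl en T I) (hT : Pr en T) :
    ∃ φ, Blk en T I φ := by
  classical
  have hex : ∀ p : α, ∃ X, p ∈ T → (Tt en I X ∧ en p ⊆ X ∧ ∀ Y, Tt en I Y → en p ⊆ Y → Y ⊆ X) := by
    intro p
    by_cases hp : p ∈ T
    · obtain ⟨X, hX⟩ := exists_largest h.2.1 (hT p hp) (h.exists_tt hT hp)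
      exact ⟨X, fun _ => hX⟩
    · exact ⟨∅, fun hh => absurd hh hp⟩
  choose φ hφ using hex
  exact ⟨φ, fun a ha => hφ a ha⟩

/-- if a tight set meets a block in two vertices it is inside the block -/
theorem Blk.absorb {T I : Finset α} {φ : α → Finset V} (hI : Sp en I)
    (hφ : Blk en T I φ) {a : α} (ha : a ∈ T) {Z : Finset V} (hZ : Tt en I Z)
    (h : 2 ≤ (φ a ∩ Z).card) : Z ⊆ φ a := by
  have h1 := (hφ a ha).1.union hI hZ h
  exact subset_union_right.trans ((hφ a ha).2.2 _ h1 ((hφ a ha).2.1.trans subset_union_left))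

theorem Blk.eq_of_subset {T I : Finset α} {φ : α → Finset V}
    (hφ : Blk en T I φ) {a b : α} (ha : a ∈ T) (hb : b ∈ T) (h : en b ⊆ φ a) : φ b = φ a := by
  have h1 := hφ a ha
  have h2 := hφ b hb
  have h3 : φ a ⊆ φ b := h2.2.2 _ h1.1 h
  have h4 : φ b ⊆ φ a := h1.2.2 _ h2.1 (h1.2.1.trans h3)
  exact subset_antisymm h4 h3

theorem Blk.inter {T I : Finset α} {φ : α → Finset V} (hI : Sp en I)
    (hφ : Blk en T I φ) {a b : α} (ha : a ∈ T) (hb : b ∈ T) (h : φ a ≠ φ b) :
    (φ a ∩ φ b).card ≤ 1 := by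
  by_contra hcon
  have h1 : 2 ≤ (φ a ∩ φ b).card := by omega
  have h2 : φ b ⊆ φ a := hφ.absorb hI ha (hφ b hb).1 h1
  have h3 : φ a ⊆ φ b := hφ.absorb hI hb (hφ a ha).1 (by rw [inter_comm]; exact h1)
  exact h (subset_antisymm h3 h2)

/-- counting along blocks -/
theorem Blk.card_eq {T I : Finset α} {φ : α → Finset V}
    (hφ : Blk en T I φ) {K : Finset α} (hK : K ⊆ T) :
    K.card = ∑ X ∈ T.image φ, (ins en K X).card := by
  rw [card_eq_sum_card_fiberwise (f := φ) (t := T.image φ)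
    (fun p hp => mem_image_of_mem _ (hK hp))]
  refine sum_congr rfl fun X hX => ?_
  obtain ⟨q, hq, rfl⟩ := mem_image.1 hX
  congr 1
  ext p
  rw [mem_filter, mem_ins]
  constructor
  · rintro ⟨h1, h2⟩
    exact ⟨h1, h2 ▸ (hφ p (hK h1)).2.1⟩
  · rintro ⟨h1, h2⟩
    exact ⟨h1, hφ.eq_of_subset hq (hK h1) h2⟩

/-- the members of `I` inside a family of blocks -/
theorem Blk.sum_le {T I : Finset α} {φ : α → Finset V} (hI : Sp en I) (hIT : I ⊆ T)
    (hφ : Blk en T I φ) (hT : Pr en T) {𝒳 : Finset (Finset V)} (h𝒳 : 𝒳 ⊆ T.image φ) {U : Finset V}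
    (hU : ∀ X ∈ 𝒳, X ⊆ U) : ∑ X ∈ 𝒳, (2 * X.card - 3) ≤ (ins en I U).card := by
  have h1 : ∑ X ∈ 𝒳, (2 * X.card - 3) = ∑ X ∈ 𝒳, (ins en I X).card := by
    refine sum_congr rfl fun X hX => ?_
    obtain ⟨q, hq, rfl⟩ := mem_image.1 (h𝒳 hX)
    have := (hφ q hq).1.2
    omega
  rw [h1, ← card_biUnion]
  · refine card_le_card ?_
    intro a ha
    obtain ⟨X, hX, haX⟩ := mem_biUnion.1 ha
    exact ins_mono_right I (hU X hX) haX
  · intro X hX Y hY hXY
    obtain ⟨p, hp, rfl⟩ := mem_image.1 (h𝒳 hX)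
    obtain ⟨q, hq, rfl⟩ := mem_image.1 (h𝒳 hY)
    show Disjoint (ins en I (φ p)) (ins en I (φ q))
    rw [disjoint_left]
    intro a ha hb
    rw [mem_ins] at ha hb
    exact hXY ((hφ.eq_of_subset hp (hIT ha.1) ha.2).symm.trans
      (hφ.eq_of_subset hq (hIT ha.1) hb.2))

/-- a member of `J ⊆ T` inside a block: bound -/
theorem Blk.ins_le {T I J : Finset α} {φ : α → Finset V}
    (hφ : Blk en T I φ) (hJ : Sp en J) {X : Finset V} (hX : X ∈ T.image φ) :
    (ins en J X).card ≤ (ins en I X).card := by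
  obtain ⟨q, hq, rfl⟩ := mem_image.1 hX
  have h1 := (hφ q hq).1
  have h2 := hJ _ h1.1
  have h3 := h1.2
  omega

/-- two independent sets in different blocks -/
theorem Blk.card_add_le {T I J K : Finset α} {φ : α → Finset V} (hIT : I ⊆ T)
    (hφ : Blk en T I φ) (hJ : Sp en J) (hK : Sp en K) (hJT : J ⊆ T) (hKT : K ⊆ T)
    (h : ∀ a ∈ J, ∀ b ∈ K, φ a ≠ φ b) : J.card + K.card ≤ I.card := by
  rw [hφ.card_eq hJT, hφ.card_eq hKT, hφ.card_eq hIT, ← sum_add_distrib]
  refine sum_le_sum fun X hX => ?_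
  have h1 := hφ.ins_le hJ hX
  have h2 := hφ.ins_le hK hX
  obtain ⟨q, hq, rfl⟩ := mem_image.1 hX
  rcases eq_empty_or_nonempty (ins en J (φ q)) with h3 | ⟨a, ha⟩
  · rw [h3, card_empty]; omega
  · rcases eq_empty_or_nonempty (ins en K (φ q)) with h4 | ⟨b, hb⟩
    · rw [h4, card_empty]; omega
    · exfalso
      rw [mem_ins] at ha hb
      exact h a ha.1 b hb.1 ((hφ.eq_of_subset hq (hJT ha.1) ha.2).trans
        (hφ.eq_of_subset hq (hKT hb.1) hb.2).symm)

theorem sp_empty : Sp en (∅ : Finset α) := by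
  intro X hX
  have : ins en ∅ X = ∅ := by unfold ins; simp
  rw [this, card_empty]
  omega

/-- equicardinality -/
theorem Maxl.card_le {T I : Finset α} (h : Maxl en T I) (hT : Pr en T)
    {J : Finset α} (hJ : J ⊆ T) (hs : Sp en J) : J.card ≤ I.card := by
  obtain ⟨φ, hφ⟩ := h.exists_blk hT
  have := hφ.card_add_le h.1 hs sp_empty hJ (empty_subset _) (fun a _ b hb => absurd hb (notMem_empty b))
  simpa using this

open Classical in
/-- rank -/
noncomputable def rk (en : α → Finset V) (T : Finset α) : ℕ :=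
  (T.powerset.filter (fun J => Sp en J)).sup card

theorem le_rk {T J : Finset α} (hJ : J ⊆ T) (hs : Sp en J) : J.card ≤ rk en T := by
  classical
  unfold rk
  exact le_sup (f := card) (mem_filter.2 ⟨mem_powerset.2 hJ, hs⟩)

theorem exists_rk (en : α → Finset V) (T : Finset α) : ∃ J ⊆ T, Sp en J ∧ J.card = rk en T := by
  classical
  unfold rk
  obtain ⟨J, hJ, h⟩ := exists_mem_eq_sup (T.powerset.filter (fun J => Sp en J))
    ⟨∅, by simp [sp_empty]⟩ card
  rw [mem_filter, mem_powerset] at hJ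
  exact ⟨J, hJ.1, hJ.2, h.symm⟩

theorem Maxl.rk_eq {T I : Finset α} (h : Maxl en T I) (hT : Pr en T) : rk en T = I.card := by
  obtain ⟨J, hJ, hs, hc⟩ := exists_rk en T
  exact le_antisymm (hc ▸ h.card_le hT hJ hs) (le_rk h.1 h.2.1)

theorem rk_mono {S T : Finset α} (h : S ⊆ T) : rk en S ≤ rk en T := by
  obtain ⟨J, hJ, hs, hc⟩ := exists_rk en S
  rw [← hc]
  exact le_rk (hJ.trans h) hs

theorem rk_le_card (T : Finset α) : rk en T ≤ T.card := by
  obtain ⟨J, hJ, hs, hc⟩ := exists_rk en T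
  rw [← hc]
  exact card_le_card hJ

theorem sp_of_rk {T : Finset α} (h : T.card ≤ rk en T) : Sp en T := by
  obtain ⟨J, hJ, hs, hc⟩ := exists_rk en T
  have := eq_of_subset_of_card_le hJ (by rw [hc]; exact h)
  rwa [this] at hs

theorem rk_submod {S T : Finset α} (hT : Pr en (S ∪ T)) :
    rk en (S ∪ T) + rk en (S ∩ T) ≤ rk en S + rk en T := by
  obtain ⟨I, hI, hs, hc⟩ := exists_rk en (S ∩ T)
  obtain ⟨J, hIJ, hJ⟩ := exists_maxl (T := S ∪ T) (J := I)
    (hI.trans (inter_subset_left.trans subset_union_left)) hs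
  rw [hJ.rk_eq hT, ← hc]
  have h1 : (J ∩ S).card ≤ rk en S := le_rk inter_subset_right (hJ.2.1.mono inter_subset_left)
  have h2 : (J ∩ T).card ≤ rk en T := le_rk inter_subset_right (hJ.2.1.mono inter_subset_left)
  have h3 := card_union_add_card_inter (J ∩ S) (J ∩ T)
  have h4 : J ∩ S ∪ J ∩ T = J := by
    rw [← inter_union_distrib_left]
    exact inter_eq_left.2 hJ.1
  have h5 : I ⊆ J ∩ S ∩ (J ∩ T) := by
    intro a ha
    have := hI ha
    rw [mem_inter] at this
    simp only [mem_inter]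
    exact ⟨⟨hIJ ha, this.1⟩, ⟨hIJ ha, this.2⟩⟩
  have h6 := card_le_card h5
  rw [h4] at h3
  omega

theorem rk_union_le {S T : Finset α} (hT : Pr en (S ∪ T)) :
    rk en (S ∪ T) ≤ rk en S + rk en T := by
  have := rk_submod hT
  omega

/-- separators: no block meets both sets -/
theorem rk_add_le {T I S K : Finset α} {φ : α → Finset V} (hI : Maxl en T I) 
    (hφ : Blk en T I φ) (hS : S ⊆ T) (hK : K ⊆ T)
    (h : ∀ a ∈ S, ∀ b ∈ K, φ a ≠ φ b) : rk en S + rk en K ≤ rk en T := by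
  obtain ⟨J1, h1, h2, h3⟩ := exists_rk en S
  obtain ⟨J2, h4, h5, h6⟩ := exists_rk en K
  rw [← h3, ← h6]
  refine (hφ.card_add_le hI.1 h2 h5 (h1.trans hS) (h4.trans hK) ?_).trans (le_rk hI.1 hI.2.1)
  intro a ha b hb
  exact h a (h1 ha) b (h4 hb)

/-- restriction of separators -/
theorem rk_add_restrict {S T A B : Finset α} (hP : Pr en (S ∪ T)) (hd : Disjoint S T)
    (h : rk en S + rk en T ≤ rk en (S ∪ T)) (hA : A ⊆ S) (hB : B ⊆ T) :
    rk en A + rk en B ≤ rk en (A ∪ B) := by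
  have h1 := rk_submod (en := en) (S := A ∪ B) (T := S) (hP.mono (by
    intro x hx
    simp only [mem_union] at hx ⊢
    rcases hx with (hx | hx) | hx
    · exact Or.inl (hA hx)
    · exact Or.inr (hB hx)
    · exact Or.inl hx))
  have h2 := rk_submod (en := en) (S := S ∪ B) (T := T) (hP.mono (by
    intro x hx
    simp only [mem_union] at hx ⊢
    rcases hx with (hx | hx) | hx
    · exact Or.inl hx
    · exact Or.inr (hB hx)
    · exact Or.inr hx))
  have e1 : A ∪ B ∪ S = S ∪ B := by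
    ext x; simp only [mem_union]
    constructor
    · rintro ((hx | hx) | hx)
      · exact Or.inl (hA hx)
      · exact Or.inr hx
      · exact Or.inl hx
    · rintro (hx | hx)
      · exact Or.inr hx
      · exact Or.inl (Or.inr hx)
  have e2 : S ∪ B ∪ T = S ∪ T := by
    ext x; simp only [mem_union]
    constructor
    · rintro ((hx | hx) | hx)
      · exact Or.inl hx
      · exact Or.inr (hB hx)
      · exact Or.inr hx
    · rintro (hx | hx)
      · exact Or.inl (Or.inl hx)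
      · exact Or.inr hx
  have m1 : rk en A ≤ rk en ((A ∪ B) ∩ S) := rk_mono (subset_inter subset_union_left hA)
  have m2 : rk en B ≤ rk en ((S ∪ B) ∩ T) := rk_mono (subset_inter subset_union_right hB)
  rw [e1] at h1
  rw [e2] at h2
  omega

/-- every vertex of a tight set is covered -/
theorem Tt.cover {I : Finset α} (hI : Sp en I) (hP : Pr en I) {X : Finset V} (hX : Tt en I X)
    {w : V} (hw : w ∈ X) : ∃ a ∈ I, en a ⊆ X ∧ w ∈ en a := by
  by_contra hcon
  push Not at hcon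
  have h1 : ins en I (X.erase w) = ins en I X := by
    refine subset_antisymm (ins_mono_right I (erase_subset _ _)) ?_
    intro a ha
    rw [mem_ins] at ha ⊢
    exact ⟨ha.1, fun x hx => mem_erase.2 ⟨fun hxw => hcon a ha.1 ha.2 (hxw ▸ hx), ha.2 hx⟩⟩
  have h2 := card_erase_add_one hw
  have h3 := hX.1
  have h4 := hX.2
  rw [← h1] at h4
  by_cases h5 : 2 ≤ (X.erase w).card
  · have := hI _ h5
    omega
  · have h6 : 0 < (ins en I (X.erase w)).card := by omega
    obtain ⟨a, ha⟩ := card_pos.1 h6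
    rw [mem_ins] at ha
    have := card_le_card ha.2
    have := hP a ha.1
    omega

/-- a set rigid in `T` is inside a block -/
theorem Blk.closure {T I J : Finset α} {φ : α → Finset V} (hI : Maxl en T I) (hP : Pr en T)
    (hφ : Blk en T I φ) (hJT : J ⊆ T) (hJ : Sp en J) {Z : Finset V} (hZ2 : 2 ≤ Z.card)
    (hJZ : ∀ a ∈ J, en a ⊆ Z) (hc : J.card + 3 = 2 * Z.card) : ∃ Y, Tt en I Y ∧ Z ⊆ Y := by
  set 𝒳 : Finset (Finset V) := J.image φ with h𝒳
  have h𝒳T : 𝒳 ⊆ T.image φ := image_subset_image hJT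
  set U : Finset V := Z ∪ 𝒳.biUnion (fun X => X \ Z) with hU
  have hUX : ∀ X ∈ 𝒳, X ⊆ U := by
    intro X hX w hw
    rw [hU, mem_union]
    by_cases hwZ : w ∈ Z
    · exact Or.inl hwZ
    · exact Or.inr (mem_biUnion.2 ⟨X, hX, mem_sdiff.2 ⟨hw, hwZ⟩⟩)
  have h1 := hφ.sum_le hI.2.1 hI.1 hP h𝒳T hUX
  have h2 : U.card ≤ Z.card + ∑ X ∈ 𝒳, (X \ Z).card :=
    (card_union_le _ _).trans (Nat.add_le_add_left card_biUnion_le _)
  have h3 : J.card = ∑ X ∈ 𝒳, (ins en J X).card := by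
    rw [card_eq_sum_card_fiberwise (f := φ) (t := 𝒳) (fun p hp => mem_image_of_mem _ hp)]
    refine sum_congr rfl fun X hX => ?_
    obtain ⟨q, hq, rfl⟩ := mem_image.1 hX
    congr 1
    ext p
    rw [mem_filter, mem_ins]
    constructor
    · rintro ⟨h1, h2⟩
      exact ⟨h1, h2 ▸ (hφ p (hJT h1)).2.1⟩
    · rintro ⟨h1, h2⟩
      exact ⟨h1, hφ.eq_of_subset (hJT hq) (hJT h1) h2⟩
  have h4 : ∀ X ∈ 𝒳, (ins en J X).card + 2 * (X \ Z).card ≤ 2 * X.card - 3 := by
    intro X hX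
    obtain ⟨q, hq, rfl⟩ := mem_image.1 hX
    have e1 : en q ⊆ φ q ∩ Z := subset_inter (hφ q (hJT hq)).2.1 (hJZ q hq)
    have e2 : 2 ≤ (φ q ∩ Z).card := by
      rw [← hP q (hJT hq)]
      exact card_le_card e1
    have e3 := hJ _ e2
    have e4 : ins en J (φ q) ⊆ ins en J (φ q ∩ Z) := by
      intro a ha
      rw [mem_ins] at ha ⊢
      exact ⟨ha.1, subset_inter ha.2 (hJZ a ha.1)⟩
    have e5 := card_le_card e4
    have e6 := card_sdiff_add_card_inter (φ q) Z
    omega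
  have h5 : ∑ X ∈ 𝒳, ((ins en J X).card + 2 * (X \ Z).card) ≤ ∑ X ∈ 𝒳, (2 * X.card - 3) :=
    sum_le_sum h4
  rw [sum_add_distrib, ← h3, ← mul_sum] at h5
  have h6 : 2 ≤ U.card := hZ2.trans (card_le_card subset_union_left)
  have h7 := hI.2.1 U h6
  exact ⟨U, ⟨h6, by omega⟩, subset_union_left⟩

end Pool.Agent.Q107.Tri
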