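import Mathlib

/-!
# Definitions: sparse and tight multigraphs, contraction, property (P)
-/

set_option autoImplicit false

namespace Pool.Agent.Q107.Tri

open Finset

variable {V : Type} [DecidableEq V]

/-- The multigraph with vertex set `W` and edge multiset `M` is `(k,l)`-sparse: every subgraph (a
vertex set `X ⊆ W` and edges `F ≤ M` with all ends in `X`) with `|X| ≥ k` has at most `k|X| - l`
edges. -/
def IsSparse (k l : ℤ) (W : Finset V) (M : Multiset (Sym2 V)) : Prop :=
  ∀ X ⊆ W, ∀ F ≤ M, (∀ s ∈ F, ∀ w ∈ s, w ∈ X) → k ≤ (X.card : ℤ) → (F.card : ℤ) ≤ k * X.card - l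

/-- `(k,l)`-tight multigraphs. -/
def IsTight (k l : ℤ) (W : Finset V) (M : Multiset (Sym2 V)) : Prop :=
  IsSparse k l W M ∧ (M.card : ℤ) = k * W.card - l

/-- The identification of `y` with `x`. -/
def glue (x y : V) (w : V) : V := if w = y then x else w

/-- The edges of `(V, S)/e` for `e = xy`: the edge `e` is deleted and `y` is identified with `x`
(so the vertex set becomes `V \ {y}`, the vertex `x` playing the role of `v_e`); parallel edges are
kept. -/
def contract (x y : V) (S : Finset (Sym2 V)) : Multiset (Sym2 V) :=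
  (S.erase s(x, y)).val.map (Sym2.map (glue x y))

/-- Property (P). -/
def PropP [Fintype V] (G : SimpleGraph V) [DecidableRel G.Adj] : Prop :=
  ∀ x y : V, G.Adj x y → ∃ S1 S2 S3 : Finset (Sym2 V),
    (Disjoint S1 S2 ∧ Disjoint S1 S3 ∧ Disjoint S2 S3 ∧ S1 ∪ S2 ∪ S3 = G.edgeFinset) ∧
    (S1.card : ℤ) = Fintype.card V - 1 ∧ (S2.card : ℤ) = Fintype.card V - 2 ∧
    (S3.card : ℤ) = Fintype.card V - 3 ∧ s(x, y) ∈ S1 ∧
    IsTight 2 3 univ (S1 ∪ S2).val ∧
    IsTight 2 3 (univ.erase y) (contract x y (S1 ∪ S3)) ∧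
    IsTight 2 3 (univ.erase y) (contract x y (S2 ∪ S3 ∪ {s(x, y)}))

end Pool.Agent.Q107.Tri
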