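import Pool.Agent.Q107.Tri.Part
import Pool.Agent.Q107.Tri.Defs

/-!
Translation between labelled families of pairs and graphs.
-/

set_option autoImplicit false

namespace Pool.Agent.Q107.Tri

open Finset

variable {V : Type} [DecidableEq V]

theorem isSparse_of_sp {α : Type} [DecidableEq α] {en : α → Finset V} {J : Finset α}
    (hJ : Sp en J) (g : α → Sym2 V) (hg : ∀ a, en a = (g a).toFinset) (W : Finset V) :
    IsSparse 2 3 W (J.val.map g) := by
  classical
  intro X _ F hF hFX hX
  have hX2 : 2 ≤ X.card := by exact_mod_cast hX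
  have h1 : F.filter (fun s => ∀ w ∈ s, w ∈ X) = F := Multiset.filter_eq_self.2 hFX
  have h2 := Multiset.card_le_card (Multiset.filter_le_filter (fun s => ∀ w ∈ s, w ∈ X) hF)
  rw [h1, Multiset.filter_map, Multiset.card_map] at h2
  have h3 : J.val.filter ((fun s => ∀ w ∈ s, w ∈ X) ∘ g) = (ins en J X).val := by
    unfold ins
    rw [filter_val]
    refine Multiset.filter_congr ?_
    intro a _
    simp only [Function.comp]
    rw [hg a]
    constructor
    · intro h w hw
      exact h w (Sym2.mem_toFinset.1 hw)
    · intro h w hw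
      exact h (Sym2.mem_toFinset.2 hw)
  rw [h3] at h2
  have h4 := hJ X hX2
  have h5 : F.card ≤ (ins en J X).card := h2
  omega

theorem toFinset_map_glue (x y : V) (s : Sym2 V) :
    (Sym2.map (glue x y) s).toFinset = s.toFinset.image (cm x y) := by
  ext w
  rw [Sym2.mem_toFinset, Sym2.mem_map, mem_image]
  constructor
  · rintro ⟨a, ha, rfl⟩
    exact ⟨a, Sym2.mem_toFinset.2 ha, rfl⟩
  · rintro ⟨a, ha, rfl⟩
    exact ⟨a, Sym2.mem_toFinset.1 ha, rfl⟩

theorem propP_of_tight [Fintype V] (G : SimpleGraph V) [DecidableRel G.Adj]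
    (hV : 4 ≤ Fintype.card V) (hT : IsTight 3 6 univ G.edgeFinset.val) : PropP G := by
  classical
  intro x y hxy
  let α : Type := {s : Sym2 V // s ∈ G.edgeFinset}
  let en : α → Finset V := fun a => a.1.toFinset
  have hadj : ∀ s : Sym2 V, s ∈ G.edgeFinset → ¬ s.IsDiag := by
    intro s hs
    rw [SimpleGraph.mem_edgeFinset] at hs
    exact G.not_isDiag_of_mem_edgeSet hs
  let e : α := ⟨s(x, y), by rw [SimpleGraph.mem_edgeFinset]; exact hxy⟩
  let emb : α ↪ Sym2 V := Function.Embedding.subtype _
  have hctx : Ctx en x y e := by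
    refine ⟨hxy.ne, Sym2.toFinset_mk_eq, ?_, ?_, ?_⟩
    · intro a
      exact Sym2.card_toFinset_of_not_isDiag _ (hadj a.1 a.2)
    · intro a b hab
      apply Subtype.ext
      apply Sym2.ext
      intro w
      have h1 : a.1.toFinset = b.1.toFinset := hab
      rw [← Sym2.mem_toFinset, ← Sym2.mem_toFinset, h1]
    · intro X hX S hS
      have h1 := hT.1 X (subset_univ _) (S.map emb).val (by
        rw [val_le_iff]
        intro s hs
        obtain ⟨a, _, rfl⟩ := mem_map.1 hs
        exact a.2) (by
        intro s hs w hw
        obtain ⟨a, ha, rfl⟩ := mem_map.1 hs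
        exact hS a ha (Sym2.mem_toFinset.2 hw)) (by exact_mod_cast hX)
      rw [card_val, card_map] at h1
      omega
  have hcard : Fintype.card α + 6 = 3 * Fintype.card V := by
    have h1 := hT.2
    rw [card_val, Finset.card_univ] at h1
    have h2 : Fintype.card α = G.edgeFinset.card := Fintype.card_coe _
    omega
  obtain ⟨P1, P2, P3, d12, d13, d23, hun, heP, c1, c2, c3, s1, s2, s3⟩ :=
    hctx.partition hV hcard
  have hmap : (univ : Finset α).map emb = G.edgeFinset := by
    ext s
    rw [mem_map]
    constructor
    · rintro ⟨a, _, rfl⟩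
      exact a.2
    · intro hs
      exact ⟨⟨s, hs⟩, mem_univ _, rfl⟩
  have heS : s(x, y) ∈ P1.map emb := mem_map.2 ⟨e, heP, rfl⟩
  have he2 : s(x, y) ∉ (P2 ∪ P3).map emb := by
    intro hh
    obtain ⟨a, ha, hae⟩ := mem_map.1 hh
    have : a = e := Subtype.ext hae
    rw [this, mem_union] at ha
    rcases ha with ha | ha
    · exact disjoint_left.1 d12 heP ha
    · exact disjoint_left.1 d13 heP ha
  have hcon : ∀ J : Finset α, contract x y (J.map emb) =
      (J.erase e).val.map (fun a => Sym2.map (glue x y) a.1) := by
    intro J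
    unfold contract
    have h1 : (J.map emb).erase s(x, y) = (J.erase e).map emb := (map_erase emb J e).symm
    rw [h1, map_val, Multiset.map_map]
    rfl
  have hsp' : ∀ J : Finset α, Sp (ctr en x y) J →
      IsSparse 2 3 (univ.erase y) (J.val.map (fun a => Sym2.map (glue x y) a.1)) := by
    intro J hJ
    exact isSparse_of_sp hJ _ (fun a => (toFinset_map_glue x y a.1).symm) _
  have hWc : (((univ : Finset V).erase y).card : ℤ) = Fintype.card V - 1 := by
    have h1 := card_erase_add_one (mem_univ y)
    rw [Finset.card_univ] at h1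
    omega
  refine ⟨P1.map emb, P2.map emb, P3.map emb, ⟨?_, ?_, ?_, ?_⟩, ?_, ?_, ?_, heS, ?_, ?_, ?_⟩
  · exact (disjoint_map emb).2 d12
  · exact (disjoint_map emb).2 d13
  · exact (disjoint_map emb).2 d23
  · rw [← map_union, ← map_union, hun, hmap]
  · rw [card_map]; omega
  · rw [card_map]; omega
  · rw [card_map]; omega
  · rw [← map_union]
    refine ⟨?_, ?_⟩
    · rw [map_val]
      exact isSparse_of_sp s1 _ (fun a => rfl) _
    · rw [card_val, card_map, card_union_of_disjoint d12, Finset.card_univ]
      push_cast
      omega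
  · rw [← map_union, hcon]
    refine ⟨hsp' _ s2, ?_⟩
    rw [Multiset.card_map, card_val, hWc]
    have h1 := card_erase_add_one (mem_union_left P3 heP)
    rw [card_union_of_disjoint d13] at h1
    omega
  · have h1 : P2.map emb ∪ P3.map emb ∪ {s(x, y)} = (P2 ∪ P3 ∪ {e}).map emb := by
      rw [map_union, map_union, map_singleton]
      rfl
    have h2 : (P2 ∪ P3 ∪ {e}).erase e = P2 ∪ P3 := by
      ext a
      simp only [mem_erase, mem_union, mem_singleton]
      constructor
      · rintro ⟨h1, h2 | h2⟩
        · exact h2
        · exact absurd h2 h1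
      · intro h
        refine ⟨?_, Or.inl h⟩
        rintro rfl
        rcases h with h | h
        · exact disjoint_left.1 d12 heP h
        · exact disjoint_left.1 d13 heP h
    rw [h1, hcon, h2]
    refine ⟨hsp' _ s3, ?_⟩
    rw [Multiset.card_map, card_val, hWc, card_union_of_disjoint d23]
    push_cast
    omega

theorem tight_of_propP [Fintype V] (G : SimpleGraph V) [DecidableRel G.Adj]
    (hG : ∃ x y, G.Adj x y) (hP : PropP G) : IsTight 3 6 univ G.edgeFinset.val := by
  classical
  constructor
  · intro X _ F hF hFX hX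
    have hX3 : 3 ≤ X.card := by exact_mod_cast hX
    have hnd : F.Nodup := Multiset.nodup_of_le hF G.edgeFinset.nodup
    obtain ⟨F', rfl⟩ : ∃ F' : Finset (Sym2 V), F'.val = F := ⟨⟨F, hnd⟩, rfl⟩
    rw [val_le_iff] at hF
    rw [card_val]
    rcases F'.eq_empty_or_nonempty with rfl | ⟨s, hs⟩
    · rw [card_empty]
      push_cast
      omega
    · induction s using Sym2.ind with
      | _ x y =>
      have hxy : G.Adj x y := by
        have := hF hs
        rwa [SimpleGraph.mem_edgeFinset] at this
      have hx : x ∈ X := hFX _ hs x (Sym2.mem_mk_left x y)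
      have hy : y ∈ X := hFX _ hs y (Sym2.mem_mk_right x y)
      obtain ⟨S1, S2, S3, ⟨d12, d13, d23, hun⟩, _, _, _, he, t1, t2, t3⟩ := hP x y hxy
      have e2 : s(x, y) ∉ S2 := fun hh => disjoint_left.1 d12 he hh
      have e3 : s(x, y) ∉ S3 := fun hh => disjoint_left.1 d13 he hh
      have hXe := card_erase_add_one hy
      have hglue : ∀ t ∈ F', ∀ w ∈ Sym2.map (glue x y) t, w ∈ X.erase y := by
        intro t ht w hw
        obtain ⟨z, hz, rfl⟩ := Sym2.mem_map.1 hw
        unfold glue
        split_ifs with hzy
        · exact mem_erase.2 ⟨hxy.ne, hx⟩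
        · exact mem_erase.2 ⟨hzy, hFX _ ht z hz⟩
      have h1 := t1.1 X (subset_univ _) (F' ∩ (S1 ∪ S2)).val (val_le_iff.2 inter_subset_right)
        (fun t ht => hFX t (mem_inter.1 ht).1) (by omega)
      have h2 := t2.1 (X.erase y) (erase_subset_erase _ (subset_univ _))
        (((F' ∩ (S1 ∪ S3)).erase s(x, y)).val.map (Sym2.map (glue x y)))
        (Multiset.map_le_map (val_le_iff.2 (erase_subset_erase _ inter_subset_right)))
        (by
          intro t ht
          obtain ⟨r, hr, rfl⟩ := Multiset.mem_map.1 ht
          exact hglue r (mem_inter.1 (mem_erase.1 hr).2).1) (by omega)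
      have h3 := t3.1 (X.erase y) (erase_subset_erase _ (subset_univ _))
        ((F' ∩ (S2 ∪ S3)).val.map (Sym2.map (glue x y)))
        (Multiset.map_le_map (val_le_iff.2 (by
          intro r hr
          rw [mem_inter, mem_union] at hr
          rw [mem_erase]
          refine ⟨?_, by
            simp only [mem_union]
            exact Or.inl hr.2⟩
          rintro rfl
          rcases hr.2 with h | h
          · exact e2 h
          · exact e3 h)))
        (by
          intro t ht
          obtain ⟨r, hr, rfl⟩ := Multiset.mem_map.1 ht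
          exact hglue r (mem_inter.1 hr).1) (by omega)
      rw [card_val] at h1
      rw [Multiset.card_map, card_val] at h2 h3
      have h4 := card_erase_add_one (mem_inter.2 ⟨hs, mem_union_left S3 he⟩ :
        s(x, y) ∈ F' ∩ (S1 ∪ S3))
      rw [inter_union_distrib_left, card_union_of_disjoint
        (d12.mono inter_subset_right inter_subset_right)] at h1
      rw [inter_union_distrib_left (s := F') (t := S1) (u := S3)] at h2 h4
      rw [card_union_of_disjoint (d13.mono inter_subset_right inter_subset_right)] at h4
      rw [inter_union_distrib_left, card_union_of_disjoint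
        (d23.mono inter_subset_right inter_subset_right)] at h3
      have h5 : F'.card = (F' ∩ S1).card + (F' ∩ S2).card + (F' ∩ S3).card := by
        rw [← card_union_of_disjoint (d12.mono inter_subset_right inter_subset_right),
          ← inter_union_distrib_left, ← card_union_of_disjoint, ← inter_union_distrib_left, hun,
          inter_eq_left.2 hF]
        refine Disjoint.mono inter_subset_right inter_subset_right ?_
        rw [disjoint_union_left]
        exact ⟨d13, d23⟩
      push_cast at h1 h2 h3 ⊢
      omega
  · obtain ⟨x, y, hxy⟩ := hG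
    obtain ⟨S1, S2, S3, ⟨d12, d13, d23, hun⟩, c1, c2, c3, _⟩ := hP x y hxy
    rw [card_val, ← hun, card_union_of_disjoint (by
      rw [disjoint_union_left]
      exact ⟨d13, d23⟩), card_union_of_disjoint d12, Finset.card_univ]
    push_cast
    omega

end Pool.Agent.Q107.Tri
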