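import Pool.Agent.Q107.Tri.Core

/-!
The rank inequality behind the partition theorem.
-/

namespace Pool.Agent.Q107.Tri

open Finset

set_option linter.unusedSectionVars false

variable {α V : Type*} [DecidableEq α] [DecidableEq V]
variable {en : α → Finset V} {u v : V} {e : α}

/-- inductive step when some member of `T` is outside the block of `e` -/
theorem Ctx.stepB (h : Ctx en u v e) {T : Finset α} (heT : e ∉ T)
    (hco : ∀ a ∈ T, rk (ctr en u v) T ≤ rk (ctr en u v) (T.erase a))
    {I₁ I₂ : Finset α} {φ₁ φ₂ : α → Finset V}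
    (hI₁ : Maxl en (insert e T) I₁) (hφ₁ : Blk en (insert e T) I₁ φ₁)
    (hI₂ : Maxl (ctr en u v) T I₂) (hφ₂ : Blk (ctr en u v) T I₂ φ₂)
    {a : α} (ha : a ∈ T) (haX : ¬ en a ⊆ φ₁ e) :
    ∃ B ⊂ T, rk en (insert e B) + 2 * rk (ctr en u v) B + 2 * T.card ≤
      rk en (insert e T) + 2 * rk (ctr en u v) T + 2 * B.card := by
  set en' := ctr en u v with hen'
  have hP : ∀ S, Pr en S := h.pr
  have hP' : Pr en' T := h.pr' heT
  have heI : e ∈ insert e T := mem_insert_self _ _
  have hX0 := hφ₁ e heI
  have huv0 : u ∈ φ₁ e ∧ v ∈ φ₁ e := by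
    have := hX0.2.1
    rw [h.he] at this
    exact ⟨this (by simp), this (by simp)⟩
  set X₀ := φ₁ e with hX₀
  set Y := φ₂ a with hY
  have hYa := hφ₂ a ha
  rw [← hY] at hYa
  set Tj := ins en' T Y with hTj
  set A := Tj.filter (fun b => ¬ en b ⊆ X₀) with hA
  set S0 := Tj.filter (fun b => en b ⊆ X₀) with hS0
  have hAT : A ⊆ T := (filter_subset _ _).trans (ins_subset _ _)
  have hS0T : S0 ⊆ T := (filter_subset _ _).trans (ins_subset _ _)
  have haA : a ∈ A := mem_filter.2 ⟨mem_ins.2 ⟨ha, hYa.2.1⟩, haX⟩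
  have hAS : A ∪ S0 = Tj := by
    rw [hA, hS0, union_comm]
    exact filter_union_filter_not_eq _ _
  -- (B1)
  have hB1 : rk en (insert e (T \ A)) + rk en A ≤ rk en (insert e T) := by
    refine rk_add_le hI₁ hφ₁ ?_ (hAT.trans (subset_insert _ _)) ?_
    · exact insert_subset_insert _ sdiff_subset
    · intro b' hb' b hb heq
      have hbT : b ∈ T := hAT hb
      have hbI : b ∈ insert e T := mem_insert_of_mem hbT
      have hbX : ¬ en b ⊆ X₀ := (mem_filter.1 hb).2
      have hbY : en' b ⊆ Y := (mem_ins.1 (mem_filter.1 hb).1).2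
      have hXb := hφ₁ b hbI
      have hne : φ₁ b ≠ X₀ := fun hh => hbX (hh ▸ hXb.2.1)
      have hb'e : b' ≠ e := by
        rintro rfl
        exact hne heq.symm
      have hb'T : b' ∈ T := by
        rcases mem_insert.1 hb' with hh | hh
        · exact absurd hh hb'e
        · exact (mem_sdiff.1 hh).1
      have hb'I : b' ∈ insert e T := mem_insert_of_mem hb'T
      have hb'A : b' ∉ A := by
        rcases mem_insert.1 hb' with hh | hh
        · exact absurd hh hb'e
        · exact (mem_sdiff.1 hh).2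
      apply hb'A
      have hXb' := hφ₁ b' hb'I
      rw [heq] at hXb'
      rw [hA, mem_filter, hTj, mem_ins]
      have huvX : ¬ (u ∈ φ₁ b ∧ v ∈ φ₁ b) := by
        rintro ⟨h1, h2⟩
        apply hne
        have h3 : en e ⊆ φ₁ b := by
          rw [h.he]
          intro w hw
          rw [mem_insert, mem_singleton] at hw
          rcases hw with rfl | rfl
          · exact h1
          · exact h2
        exact (hφ₁.eq_of_subset hbI heI h3).symm
      refine ⟨⟨hb'T, ?_⟩, ?_⟩
      · -- en' b' ⊆ Y by closure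
        have heJ : e ∉ ins en I₁ (φ₁ b) := by
          intro hh
          rw [mem_ins, h.he] at hh
          exact huvX ⟨hh.2 (by simp), hh.2 (by simp)⟩
        have hJT : ins en I₁ (φ₁ b) ⊆ T := by
          intro c hc
          rcases mem_insert.1 (hI₁.1 (ins_subset _ _ hc)) with hh | hh
          · exact absurd (hh ▸ hc) heJ
          · exact hh
        have hcard : ((φ₁ b).image (cm u v)).card = (φ₁ b).card :=
          card_image_of_injOn (cm_injOn huvX)
        obtain ⟨Z, hZ, hZs⟩ := hφ₂.closure (J := ins en I₁ (φ₁ b))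
          (Z := (φ₁ b).image (cm u v)) hI₂ hP' hJT
          (h.proj (hI₁.2.1.mono (ins_subset _ _)) (X := φ₁ b) (fun c hc => (mem_ins.1 hc).2) huvX)
          (by rw [hcard]; exact hXb.1.1)
          (fun c hc => ctr_subset (mem_ins.1 hc).2)
          (by rw [hcard]; exact hXb.1.2)
        have h1 : en' b ⊆ Z := (ctr_subset hXb.2.1).trans hZs
        have h2 : en' b' ⊆ Z := (ctr_subset hXb'.2.1).trans hZs
        have h3 : 2 ≤ (φ₂ a ∩ Z).card := by
          rw [← hP' b hbT]
          exact card_le_card (subset_inter hbY h1)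
        exact h2.trans (hφ₂.absorb hI₂.2.1 ha hZ h3)
      · intro hh
        apply hne
        rw [← heq]
        exact hφ₁.eq_of_subset heI hb'I hh
  -- (B2)
  have hsep : rk en' Tj + rk en' (T \ Tj) ≤ rk en' T := by
    refine rk_add_le hI₂ hφ₂ (ins_subset _ _) sdiff_subset ?_
    intro b hb c hc heq
    rw [hTj, mem_ins] at hb
    rw [mem_sdiff] at hc
    apply hc.2
    rw [hTj, mem_ins]
    refine ⟨hc.1, ?_⟩
    have h1 : φ₂ b = Y := hφ₂.eq_of_subset ha hb.1 hb.2
    rw [← h1, heq]
    exact (hφ₂ c hc.1).2.1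
  have hTjr : 2 * Y.card ≤ rk en' Tj + 3 := by
    have h1 : ins en' I₂ Y ⊆ Tj := ins_mono hI₂.1 Y
    have h2 := le_rk h1 (hI₂.2.1.mono (ins_subset _ _))
    have h3 := hYa.1.2
    omega
  have hBr : rk en' (T \ A) ≤ rk en' S0 + rk en' (T \ Tj) := by
    have h1 : T \ A ⊆ S0 ∪ (T \ Tj) := by
      intro b hb
      rw [mem_sdiff] at hb
      rw [mem_union]
      by_cases hbj : b ∈ Tj
      · left
        rw [← hAS, mem_union] at hbj
        exact hbj.resolve_left hb.2
      · exact Or.inr (mem_sdiff.2 ⟨hb.1, hbj⟩)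
    refine (rk_mono h1).trans (rk_union_le (hP'.mono ?_))
    exact union_subset hS0T sdiff_subset
  have hS0e : rk en' S0 + 1 ≤ rk en (insert e S0) := h.rk_lift (fun hh => heT (hS0T hh))
  -- separator of the block of `e`
  have hsep0 : rk en (ins en (insert e T) X₀) + rk en (insert e T \ ins en (insert e T) X₀) ≤
      rk en (insert e T) := by
    refine rk_add_le hI₁ hφ₁ (ins_subset _ _) sdiff_subset ?_
    intro b hb c hc heq
    rw [mem_ins] at hb
    rw [mem_sdiff] at hc
    apply hc.2
    rw [mem_ins]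
    refine ⟨hc.1, ?_⟩
    have h1 : φ₁ b = X₀ := hφ₁.eq_of_subset heI hb.1 hb.2
    rw [← h1, heq]
    exact (hφ₁ c hc.1).2.1
  have hsplit : rk en (insert e S0) + rk en A ≤ rk en (insert e S0 ∪ A) := by
    refine rk_add_restrict (S := ins en (insert e T) X₀)
      (T := insert e T \ ins en (insert e T) X₀) (hP _) disjoint_sdiff ?_ ?_ ?_
    · rw [union_sdiff_of_subset (ins_subset _ _)]
      exact hsep0
    · intro b hb
      rw [mem_ins]
      rcases mem_insert.1 hb with rfl | hb
      · exact ⟨heI, hX0.2.1⟩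
      · exact ⟨mem_insert_of_mem (hS0T hb), (mem_filter.1 hb).2⟩
    · intro b hb
      rw [mem_sdiff, mem_ins]
      exact ⟨mem_insert_of_mem (hAT hb), fun hh => (mem_filter.1 hb).2 hh.2⟩
  have hdrop : rk en' S0 + rk en A + 2 ≤ 2 * Y.card := by
    have hY2 := hYa.1.1
    by_cases hu : u ∈ Y
    · have h1 : rk en (insert e S0 ∪ A) + 3 ≤ 2 * (insert v Y).card := by
        refine rk_le_of_inside (hY2.trans (card_le_card (subset_insert _ _))) ?_
        intro b hb
        rw [mem_union, mem_insert] at hb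
        rcases hb with (rfl | hb) | hb
        · rw [h.he]
          intro w hw
          rw [mem_insert, mem_singleton] at hw
          rcases hw with rfl | rfl
          · exact mem_insert_of_mem hu
          · exact mem_insert_self _ _
        · exact subset_of_ctr (mem_ins.1 (mem_filter.1 hb).1).2
        · exact subset_of_ctr (mem_ins.1 (mem_filter.1 hb).1).2
      have h2 : (insert v Y).card ≤ Y.card + 1 := card_insert_le _ _
      omega
    · have h1 : rk en (S0 ∪ A) + 3 ≤ 2 * Y.card := by
        refine rk_le_of_inside hY2 ?_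
        intro b hb
        rw [mem_union] at hb
        rcases hb with hb | hb
        · exact subset_of_ctr' (mem_ins.1 (mem_filter.1 hb).1).2 hu
        · exact subset_of_ctr' (mem_ins.1 (mem_filter.1 hb).1).2 hu
      have h2 : rk en (insert e S0 ∪ A) ≤ rk en (S0 ∪ A) + 1 := by
        have h3 : insert e S0 ∪ A = (S0 ∪ A) ∪ {e} := by
          ext x; simp only [mem_union, mem_insert, mem_singleton]; tauto
        rw [h3]
        refine (rk_union_le (hP _)).trans (Nat.add_le_add_left ?_ _)
        exact (rk_le_card _).trans (by simp)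
      omega
  -- size
  have hBss : T \ A ⊂ T := by
    rw [ssubset_iff_of_subset sdiff_subset]
    exact ⟨a, ha, fun hh => (mem_sdiff.1 hh).2 haA⟩
  have hcards : (T \ A).card + A.card = T.card := by
    rw [card_sdiff_add_card, union_eq_left.2 hAT]
  by_cases hA2 : 2 ≤ A.card
  · refine ⟨T \ A, hBss, ?_⟩
    have := h.dens hA2
    omega
  · exfalso
    have hA1 : A = {a} := by
      have h1 : A.card = 1 := by
        have := card_pos.2 ⟨a, haA⟩
        omega
      obtain ⟨b, hb⟩ := card_eq_one.1 h1
      rw [hb] at haA ⊢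
      rw [mem_singleton.1 haA]
    have h1 := hco a ha
    rw [hA1] at hBr
    rw [sdiff_singleton_eq_erase] at hBr
    have h2 : 2 * Y.card ≤ rk en' S0 + 3 := by omega
    -- all members of S0 are inside Y ∩ c(X₀)
    have h3 : ∀ b ∈ S0, en' b ⊆ Y ∩ X₀.image (cm u v) := by
      intro b hb
      exact subset_inter (mem_ins.1 (mem_filter.1 hb).1).2 (ctr_subset (mem_filter.1 hb).2)
    have hY2 := hYa.1.1
    have h4 : 0 < rk en' S0 := by omega
    obtain ⟨J, hJ, hJs, hJc⟩ := exists_rk en' S0
    obtain ⟨b, hb⟩ := card_pos.1 (hJc ▸ h4)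
    have h5 : 2 ≤ (Y ∩ X₀.image (cm u v)).card := by
      rw [← hP' b (hS0T (hJ hb))]
      exact card_le_card (h3 b (hJ hb))
    have h6 := rk_le_of_inside h5 h3
    have h7 : Y ∩ X₀.image (cm u v) = Y :=
      eq_of_subset_of_card_le inter_subset_left (by omega)
    have h8 : Y ⊆ X₀.image (cm u v) := by
      rw [← h7]
      exact inter_subset_right
    apply haX
    intro w hw
    have h9 : cm u v w ∈ X₀.image (cm u v) := h8 (hYa.2.1 (mem_image_of_mem _ hw))
    obtain ⟨x, hx, hxw⟩ := mem_image.1 h9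
    by_cases hxw' : x = w
    · rwa [← hxw']
    · rcases (cm_inj hxw hxw').2.1 with rfl | rfl
      · exact huv0.1
      · exact huv0.2

end Pool.Agent.Q107.Tri
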