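import Pool.Agent.Q107.Tri.Ineq

/-!
The rank inequality behind the partition theorem: the case where everything is inside the block
of the contracted edge, and the conclusion.
-/

namespace Pool.Agent.Q107.Tri

open Finset

set_option linter.unusedSectionVars false

variable {α V : Type*} [DecidableEq α] [DecidableEq V]
variable {en : α → Finset V} {u v : V} {e : α}

theorem Blk.ring {T I : Finset α} {φ : α → Finset V} (hI : Sp en I) (hIT : I ⊆ T)
    (hP : Pr en T) (hφ : Blk en T I φ) {a b c : α} (ha : a ∈ T) (hb : b ∈ T) (hc : c ∈ T)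
    {p q w : V} (hp : p ∈ φ a ∩ φ b) (hq : q ∈ φ a ∩ φ c) (hw : w ∈ φ b ∩ φ c) (hpq : p ≠ q)
    (hab : φ a ≠ φ b) (hac : φ a ≠ φ c) (hbc : φ b ≠ φ c) : False := by
  rw [mem_inter] at hp hq hw
  set Z := φ a ∪ (φ b ∪ φ c) with hZ
  have h1 := hφ.sum_le hI hIT hP (𝒳 := {φ a, φ b, φ c}) (U := Z) (by
    intro X hX
    simp only [mem_insert, mem_singleton] at hX
    rcases hX with rfl | rfl | rfl
    · exact mem_image_of_mem _ ha
    · exact mem_image_of_mem _ hb
    · exact mem_image_of_mem _ hc) (by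
    intro X hX
    simp only [mem_insert, mem_singleton] at hX
    rcases hX with rfl | rfl | rfl
    · exact subset_union_left
    · exact subset_union_left.trans subset_union_right
    · exact subset_union_right.trans subset_union_right)
  rw [sum_insert (by simp [hab, hac]), sum_insert (by simp [hbc]), sum_singleton] at h1
  have h2 := card_union_add_card_inter (φ a) (φ b ∪ φ c)
  have h3 := card_union_add_card_inter (φ b) (φ c)
  have h4 : 1 ≤ (φ b ∩ φ c).card := card_pos.2 ⟨w, mem_inter.2 hw⟩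
  have h5 : 2 ≤ (φ a ∩ (φ b ∪ φ c)).card := by
    rw [← card_pair hpq]
    refine card_le_card ?_
    intro x hx
    rw [mem_insert, mem_singleton] at hx
    rw [mem_inter, mem_union]
    rcases hx with rfl | rfl
    · exact ⟨hp.1, Or.inl hp.2⟩
    · exact ⟨hq.1, Or.inr hq.2⟩
  have ha2 := (hφ a ha).1.1
  have hb2 := (hφ b hb).1.1
  have hc2 := (hφ c hc).1.1
  have h6 : 2 ≤ Z.card := ha2.trans (card_le_card subset_union_left)
  have h7 := hI Z h6
  have hZt : Tt en I Z := ⟨h6, by rw [← hZ] at h2; omega⟩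
  have h8 : Z ⊆ φ a := by
    refine hφ.absorb hI ha hZt ?_
    rw [inter_eq_left.2 subset_union_left]
    exact ha2
  have h9 : 2 ≤ (φ a ∩ φ b).card := by
    rw [inter_eq_right.2 ((subset_union_left.trans subset_union_right).trans h8)]
    exact hb2
  have h10 := hφ.inter hI ha hb hab
  omega

/-- the case where every member of `T` is inside the block of `e` -/
theorem Ctx.stepC (h : Ctx en u v e) {T : Finset α} (heT : e ∉ T)
    (hco : ∀ a ∈ T, rk (ctr en u v) T ≤ rk (ctr en u v) (T.erase a))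
    {I₁ I₂ : Finset α} {φ₁ φ₂ : α → Finset V}
    (hI₁ : Maxl en (insert e T) I₁) (hφ₁ : Blk en (insert e T) I₁ φ₁)
    (hI₂ : Maxl (ctr en u v) T I₂) (hφ₂ : Blk (ctr en u v) T I₂ φ₂)
    (hall : ∀ a ∈ T, en a ⊆ φ₁ e) :
    2 * T.card + 1 ≤ rk en (insert e T) + 2 * rk (ctr en u v) T := by
  set en' := ctr en u v with hen'
  have hP' : Pr en' T := h.pr' heT
  have heI : e ∈ insert e T := mem_insert_self _ _
  have hX0 := hφ₁ e heI
  have huv0 : u ∈ φ₁ e ∧ v ∈ φ₁ e := by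
    have := hX0.2.1
    rw [h.he] at this
    exact ⟨this (by simp), this (by simp)⟩
  set X₀ := φ₁ e with hX₀
  have hr1 : 2 * X₀.card ≤ rk en (insert e T) + 3 := by
    have h1 := le_rk ((ins_subset I₁ X₀).trans hI₁.1) (hI₁.2.1.mono (ins_subset (en := en) I₁ X₀))
    have h2 := hX0.1.2
    omega
  set 𝒴 := T.image φ₂ with h𝒴
  set 𝒜 := 𝒴.filter (fun Y => u ∈ Y) with h𝒜
  set 𝒞 := 𝒴.filter (fun Y => ¬ u ∈ Y) with h𝒞
  -- covering
  have hcov : ∀ Y ∈ 𝒴, ∀ w ∈ Y, ∃ b ∈ I₂, en' b ⊆ Y ∧ w ∈ en' b := by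
    intro Y hY w hw
    obtain ⟨a, ha, rfl⟩ := mem_image.1 hY
    exact (hφ₂ a ha).1.cover hI₂.2.1 (hP'.mono hI₂.1) hw
  have hc4 : ∀ Y ∈ 𝒴, Y ⊆ X₀.erase v := by
    intro Y hY w hw
    obtain ⟨b, hb, _, hwb⟩ := hcov Y hY w hw
    obtain ⟨x, hx, rfl⟩ := mem_image.1 hwb
    have hxX : x ∈ X₀ := hall b (hI₂.1 hb) hx
    unfold cm
    split_ifs with hxv
    · exact mem_erase.2 ⟨h.huv, huv0.1⟩
    · exact mem_erase.2 ⟨hxv, hxX⟩
  have hY2 : ∀ Y ∈ 𝒴, 2 ≤ Y.card ∧ (ins en' I₂ Y).card + 3 = 2 * Y.card := by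
    intro Y hY
    obtain ⟨a, ha, rfl⟩ := mem_image.1 hY
    exact (hφ₂ a ha).1
  have hc2 : ∀ Y ∈ 𝒜, (ins en' T Y).card + 4 ≤ 3 * Y.card := by
    intro Y hY
    rw [h𝒜, mem_filter] at hY
    have hvY : v ∉ Y := fun hh => (mem_erase.1 (hc4 Y hY.1 hh)).1 rfl
    have h1 : (insert v Y).card = Y.card + 1 := card_insert_of_notMem hvY
    have h2 := (hY2 Y hY.1).1
    have h3 := h.sp (insert v Y) (by omega) (insert e (ins en' T Y)) (by
      intro b hb
      rcases mem_insert.1 hb with rfl | hb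
      · rw [h.he]
        intro w hw
        rw [mem_insert, mem_singleton] at hw
        rcases hw with rfl | rfl
        · exact mem_insert_of_mem hY.2
        · exact mem_insert_self _ _
      · exact subset_of_ctr (mem_ins.1 hb).2)
    rw [card_insert_of_notMem (fun hh => heT (ins_subset _ _ hh)), h1] at h3
    omega
  have hc3 : ∀ Y ∈ 𝒞, (ins en' T Y).card + 6 ≤ 3 * Y.card := by
    intro Y hY
    rw [h𝒞, mem_filter] at hY
    have h2 := (hY2 Y hY.1).1
    by_cases h3 : 3 ≤ Y.card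
    · exact h.sp Y h3 _ (fun b hb => subset_of_ctr' (mem_ins.1 hb).2 hY.2)
    · exfalso
      have h4 : Y.card = 2 := by omega
      obtain ⟨a, ha, rfl⟩ := mem_image.1 hY.1
      have haY : en a ⊆ φ₂ a := subset_of_ctr' (hφ₂ a ha).2.1 hY.2
      have haY' : en a = φ₂ a := eq_of_subset_of_card_le haY (by rw [h4, h.h2])
      have h5 : ∀ b ∈ T, φ₂ b = φ₂ a → b = a := by
        intro b hb hba
        apply h.inj
        rw [haY']
        have hbs : ctr en u v b ⊆ φ₂ a := by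
          rw [← hba]
          exact (hφ₂ b hb).2.1
        exact eq_of_subset_of_card_le (subset_of_ctr' hbs hY.2) (by rw [h4, h.h2])
      have h6 : rk en' {a} + rk en' (T.erase a) ≤ rk en' T := by
        refine rk_add_le hI₂ hφ₂ (singleton_subset_iff.2 ha) (erase_subset _ _) ?_
        intro b hb c hc heq
        rw [mem_singleton] at hb
        rw [mem_erase] at hc
        exact hc.1 (h5 c hc.2 (by rw [← heq, hb]))
      have h7 : 1 ≤ rk en' {a} := by
        have h8 : 0 < (ins en' I₂ (φ₂ a)).card := by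
          have := (hY2 _ hY.1).2
          omega
        obtain ⟨b, hb⟩ := card_pos.1 h8
        rw [mem_ins] at hb
        have hba : b = a := h5 b (hI₂.1 hb.1) (hφ₂.eq_of_subset ha (hI₂.1 hb.1) hb.2)
        have := le_rk (en := en') (subset_refl ({a} : Finset α))
          (hI₂.2.1.mono (singleton_subset_iff.2 (hba ▸ hb.1)))
        simpa using this
      have := hco a ha
      omega
  -- W
  set W := insert u (𝒜.biUnion (fun Y => Y.erase u)) with hW
  have hWc : W.card = 1 + ∑ Y ∈ 𝒜, (Y.erase u).card := by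
    rw [hW, card_insert_of_notMem, card_biUnion, add_comm]
    · intro Y hY Y' hY' hne
      show Disjoint (Y.erase u) (Y'.erase u)
      rw [h𝒜, mem_coe, mem_filter] at hY hY'
      obtain ⟨a, ha, rfl⟩ := mem_image.1 hY.1
      obtain ⟨b, hb, rfl⟩ := mem_image.1 hY'.1
      have h1 := hφ₂.inter hI₂.2.1 ha hb hne
      rw [disjoint_left]
      intro x hx hx'
      rw [mem_erase] at hx hx'
      rw [card_le_one] at h1
      exact hx.1 (h1 x (mem_inter.2 ⟨hx.2, hx'.2⟩) u (mem_inter.2 ⟨hY.2, hY'.2⟩))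
    · intro hh
      obtain ⟨Y, _, hY'⟩ := mem_biUnion.1 hh
      exact (mem_erase.1 hY').1 rfl
  have hWs : W.card + 𝒜.card = 1 + ∑ Y ∈ 𝒜, Y.card := by
    have h1 : ∑ Y ∈ 𝒜, Y.card = ∑ Y ∈ 𝒜, ((Y.erase u).card + 1) := by
      refine sum_congr rfl fun Y hY => ?_
      rw [h𝒜, mem_filter] at hY
      exact (card_erase_add_one hY.2).symm
    rw [h1, sum_add_distrib, sum_const, smul_eq_mul, mul_one, hWc]
    ring
  have hc6 : ∀ C ∈ 𝒞, (C ∩ W).card ≤ 1 := by
    intro C hC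
    rw [h𝒞, mem_filter] at hC
    obtain ⟨c, hc, rfl⟩ := mem_image.1 hC.1
    rw [card_le_one]
    intro p hp q hq
    by_contra hpq
    rw [mem_inter] at hp hq
    have hpu : p ≠ u := fun hh => hC.2 (hh ▸ hp.1)
    have hqu : q ≠ u := fun hh => hC.2 (hh ▸ hq.1)
    obtain ⟨Y₁, hY₁, hpY⟩ := mem_biUnion.1 ((mem_insert.1 hp.2).resolve_left hpu)
    obtain ⟨Y₂, hY₂, hqY⟩ := mem_biUnion.1 ((mem_insert.1 hq.2).resolve_left hqu)
    rw [h𝒜, mem_filter] at hY₁ hY₂
    obtain ⟨a, ha, rfl⟩ := mem_image.1 hY₁.1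
    obtain ⟨b, hb, rfl⟩ := mem_image.1 hY₂.1
    have hca : φ₂ c ≠ φ₂ a := fun hh => hC.2 (hh ▸ hY₁.2)
    have hcb : φ₂ c ≠ φ₂ b := fun hh => hC.2 (hh ▸ hY₂.2)
    have hab : φ₂ a ≠ φ₂ b := by
      intro hh
      have h1 := hφ₂.inter hI₂.2.1 hc ha hca
      rw [card_le_one] at h1
      exact hpq (h1 p (mem_inter.2 ⟨hp.1, (mem_erase.1 hpY).2⟩) q
        (mem_inter.2 ⟨hq.1, by rw [hh]; exact (mem_erase.1 hqY).2⟩))
    exact hφ₂.ring hI₂.2.1 hI₂.1 hP' hc ha hb (mem_inter.2 ⟨hp.1, (mem_erase.1 hpY).2⟩)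
      (mem_inter.2 ⟨hq.1, (mem_erase.1 hqY).2⟩) (mem_inter.2 ⟨hY₁.2, hY₂.2⟩) hpq hca hcb hab
  set U := 𝒞.biUnion id with hU
  have hU1 : U.card ≤ (U \ W).card + 𝒞.card := by
    have h1 := card_sdiff_add_card_inter U W
    have h2 : (U ∩ W).card ≤ 𝒞.card := by
      have h3 : U ∩ W ⊆ 𝒞.biUnion (fun C => C ∩ W) := by
        intro x hx
        rw [mem_inter, hU, mem_biUnion] at hx
        obtain ⟨⟨C, hC, hxC⟩, hxW⟩ := hx
        exact mem_biUnion.2 ⟨C, hC, mem_inter.2 ⟨hxC, hxW⟩⟩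
      refine (card_le_card h3).trans (card_biUnion_le.trans ?_)
      refine (sum_le_sum hc6).trans ?_
      simp
    omega
  have hWU : W.card + (U \ W).card + 1 ≤ X₀.card := by
    have h1 : W ∪ (U \ W) ⊆ X₀.erase v := by
      intro x hx
      rw [mem_union, mem_sdiff] at hx
      rcases hx with hx | hx
      · rcases mem_insert.1 hx with rfl | hx
        · exact mem_erase.2 ⟨h.huv, huv0.1⟩
        · obtain ⟨Y, hY, hxY⟩ := mem_biUnion.1 hx
          rw [h𝒜, mem_filter] at hY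
          exact hc4 Y hY.1 (mem_erase.1 hxY).2
      · obtain ⟨Y, hY, hxY⟩ := mem_biUnion.1 hx.1
        rw [h𝒞, mem_filter] at hY
        exact hc4 Y hY.1 hxY
    have h2 := card_le_card h1
    rw [card_union_of_disjoint disjoint_sdiff] at h2
    have h3 := card_erase_add_one huv0.2
    omega
  have hc8 : 0 < 𝒞.card → 2 * ∑ Y ∈ 𝒞, Y.card + 3 ≤ 2 * U.card + 3 * 𝒞.card := by
    intro hpos
    obtain ⟨C, hC⟩ := card_pos.1 hpos
    have h1 := hφ₂.sum_le hI₂.2.1 hI₂.1 hP' (𝒳 := 𝒞) (U := U) (filter_subset _ _)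
      (fun X hX => subset_biUnion_of_mem id hX)
    have h2 : 2 ≤ U.card := by
      have := (hY2 C (mem_filter.1 hC).1).1
      exact this.trans (card_le_card (subset_biUnion_of_mem id hC))
    have h3 := hI₂.2.1 U h2
    have h4 : ∑ Y ∈ 𝒞, (2 * Y.card - 3) + 3 * 𝒞.card = 2 * ∑ Y ∈ 𝒞, Y.card := by
      have h5 : 3 * 𝒞.card = ∑ Y ∈ 𝒞, 3 := by simp [mul_comm]
      rw [h5, ← sum_add_distrib, mul_sum]
      refine sum_congr rfl fun Y hY => ?_
      have := (hY2 Y (mem_filter.1 hY).1).1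
      omega
    omega
  -- cardinality of T and I₂
  have hsplit : ∀ f : Finset V → ℕ, ∑ Y ∈ 𝒴, f Y = ∑ Y ∈ 𝒜, f Y + ∑ Y ∈ 𝒞, f Y := fun f =>
    (sum_filter_add_sum_filter_not 𝒴 (fun Y => u ∈ Y) f).symm
  have hTc := hφ₂.card_eq (subset_refl T)
  have hIc := hφ₂.card_eq hI₂.1
  rw [← h𝒴, hsplit] at hTc hIc
  have s1 : ∑ Y ∈ 𝒜, (ins en' T Y).card + 4 * 𝒜.card ≤ 3 * ∑ Y ∈ 𝒜, Y.card := by
    have h5 : 4 * 𝒜.card = ∑ Y ∈ 𝒜, 4 := by simp [mul_comm]
    rw [h5, ← sum_add_distrib, mul_sum]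
    exact sum_le_sum hc2
  have s2 : ∑ Y ∈ 𝒞, (ins en' T Y).card + 6 * 𝒞.card ≤ 3 * ∑ Y ∈ 𝒞, Y.card := by
    have h5 : 6 * 𝒞.card = ∑ Y ∈ 𝒞, 6 := by simp [mul_comm]
    rw [h5, ← sum_add_distrib, mul_sum]
    exact sum_le_sum hc3
  have s3 : ∑ Y ∈ 𝒜, (ins en' I₂ Y).card + 3 * 𝒜.card = 2 * ∑ Y ∈ 𝒜, Y.card := by
    have h5 : 3 * 𝒜.card = ∑ Y ∈ 𝒜, 3 := by simp [mul_comm]
    rw [h5, ← sum_add_distrib, mul_sum]
    exact sum_congr rfl fun Y hY => (hY2 Y (mem_filter.1 hY).1).2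
  have s4 : ∑ Y ∈ 𝒞, (ins en' I₂ Y).card + 3 * 𝒞.card = 2 * ∑ Y ∈ 𝒞, Y.card := by
    have h5 : 3 * 𝒞.card = ∑ Y ∈ 𝒞, 3 := by simp [mul_comm]
    rw [h5, ← sum_add_distrib, mul_sum]
    exact sum_congr rfl fun Y hY => (hY2 Y (mem_filter.1 hY).1).2
  have hr2 : rk en' T = I₂.card := hI₂.rk_eq hP'
  rw [hr2]
  rcases Nat.eq_zero_or_pos 𝒞.card with h0 | hpos
  · have h1 : ∑ Y ∈ 𝒞, Y.card = 0 := by
      rw [card_eq_zero] at h0
      rw [h0, sum_empty]
    omega
  · have := hc8 hpos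
    omega

/-- **The rank inequality.** -/
theorem Ctx.ineq (h : Ctx en u v e) : ∀ n : ℕ, ∀ T : Finset α, T.card = n → e ∉ T →
    2 * T.card + 1 ≤ rk en (insert e T) + 2 * rk (ctr en u v) T := by
  intro n
  induction n using Nat.strong_induction_on with
  | _ n ih =>
    intro T hTn heT
    by_cases hco : ∀ a ∈ T, rk (ctr en u v) T ≤ rk (ctr en u v) (T.erase a)
    · have hse : Sp en {e} := by
        have h1 := h.lift (notMem_empty e) (sp_empty (en := ctr en u v))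
        simpa using h1
      obtain ⟨I₁, _, hI₁⟩ := exists_maxl (T := insert e T) (J := {e}) (by simp) hse
      obtain ⟨φ₁, hφ₁⟩ := hI₁.exists_blk (h.pr _)
      obtain ⟨I₂, _, hI₂⟩ := exists_maxl (T := T) (J := ∅) (empty_subset _)
        (sp_empty (en := ctr en u v))
      obtain ⟨φ₂, hφ₂⟩ := hI₂.exists_blk (h.pr' heT)
      by_cases hall : ∀ a ∈ T, en a ⊆ φ₁ e
      · exact h.stepC heT hco hI₁ hφ₁ hI₂ hφ₂ hall
      · push Not at hall
        obtain ⟨a, ha, haX⟩ := hall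
        obtain ⟨B, hBT, hB⟩ := h.stepB heT hco hI₁ hφ₁ hI₂ hφ₂ ha haX
        have h1 := ih B.card (hTn ▸ card_lt_card hBT) B rfl (fun hh => heT (hBT.1 hh))
        omega
    · push Not at hco
      obtain ⟨a, ha, hlt⟩ := hco
      have h1 := card_erase_add_one ha
      have h2 := ih (T.erase a).card (by omega) (T.erase a) rfl
        (fun hh => heT (mem_erase.1 hh).2)
      have h3 : rk en (insert e (T.erase a)) ≤ rk en (insert e T) :=
        rk_mono (insert_subset_insert _ (erase_subset _ _))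
      omega

end Pool.Agent.Q107.Tri
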