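import Mathlib

/-!
A packing lemma for three monotone submodular functions.
-/

namespace Pool.Agent.Q107.Tri

open Finset

set_option linter.unusedSectionVars false

variable {β : Type*} [DecidableEq β]

theorem pack_aux (D : Finset β) (r : Fin 3 → Finset β → ℤ)
    (hmono : ∀ i S T, S ⊆ T → T ⊆ D → r i S ≤ r i T)
    (hsub : ∀ i S T, S ⊆ D → T ⊆ D → r i (S ∪ T) + r i (S ∩ T) ≤ r i S + r i T) (K : ℤ) :
    ∀ R : Finset β, ∀ A : Fin 3 → Finset β, R ⊆ D → (∀ i, A i ⊆ D) → (∀ i, Disjoint (A i) R) →
      (∀ i j, i ≠ j → Disjoint (A i) (A j)) →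
      (∀ T ⊆ R, K ≤ ((R \ T).card : ℤ) + ∑ i, r i (A i ∪ T)) →
      ∃ A' : Fin 3 → Finset β, (∀ i, A i ⊆ A' i) ∧ (∀ i, A' i ⊆ A i ∪ R) ∧
        (∀ i j, i ≠ j → Disjoint (A' i) (A' j)) ∧ (∀ x ∈ R, ∃ i, x ∈ A' i) ∧
        K ≤ ∑ i, r i (A' i) := by
  intro R
  induction R using Finset.induction_on with
  | empty =>
    intro A _ _ _ hd hK
    refine ⟨A, fun i => subset_rfl, fun i => subset_union_left, hd,
      fun x hx => absurd hx (notMem_empty x), ?_⟩
    have := hK ∅ subset_rfl
    simpa using this
  | insert x R hxR ih =>
    intro A hRD hAD hAR hd hK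
    have hxD : x ∈ D := hRD (mem_insert_self _ _)
    have hRD' : R ⊆ D := (subset_insert _ _).trans hRD
    have hxA : ∀ i, x ∉ A i := fun i hx =>
      (disjoint_left.1 (hAR i)) hx (mem_insert_self _ _)
    -- lower bound for tight sets
    have hlow : ∀ T ⊆ R, K - 1 ≤ ((R \ T).card : ℤ) + ∑ i, r i (A i ∪ T) := by
      intro T hT
      have h1 := hK T (hT.trans (subset_insert _ _))
      have h2 : insert x R \ T = insert x (R \ T) := by
        rw [insert_sdiff_of_notMem]
        exact fun h => hxR (hT h)
      rw [h2, card_insert_of_notMem (fun h => hxR (mem_sdiff.1 h).1)] at h1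
      push_cast at h1
      linarith
    have key : ∃ i, ∀ T ⊆ R, K ≤ ((R \ T).card : ℤ) +
        ∑ j, r j ((if j = i then insert x (A j) else A j) ∪ T) := by
      by_contra hcon
      push Not at hcon
      choose T hT hlt using hcon
      have hsum : ∀ i, ∑ j, r j ((if j = i then insert x (A j) else A j) ∪ T i) =
          ∑ j, r j (A j ∪ T i) + (r i (insert x (A i) ∪ T i) - r i (A i ∪ T i)) := by
        intro i
        have : ∀ j, r j ((if j = i then insert x (A j) else A j) ∪ T i) =
            r j (A j ∪ T i) + (if j = i then (r j (insert x (A j) ∪ T i) - r j (A j ∪ T i))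
              else 0) := by
          intro j
          split_ifs
          · ring
          · ring
        rw [sum_congr rfl (fun j _ => this j), sum_add_distrib]
        congr 1
        rw [sum_ite_eq' univ i]
        simp
      have hbr : ∀ i, r i (A i ∪ T i) ≤ r i (insert x (A i) ∪ T i) := fun i =>
        hmono i _ _ (union_subset_union_left (subset_insert _ _))
          (union_subset (insert_subset hxD (hAD i)) ((hT i).trans hRD'))
      have htight : ∀ i, ((R \ T i).card : ℤ) + ∑ j, r j (A j ∪ T i) ≤ K - 1 := by
        intro i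
        have h1 := hlt i
        rw [hsum i] at h1
        have := hbr i
        linarith
      have hspan : ∀ i, r i (insert x (A i) ∪ T i) ≤ r i (A i ∪ T i) := by
        intro i
        have h1 := hlt i
        rw [hsum i] at h1
        have := hlow (T i) (hT i)
        linarith
      have hun : ∀ S ⊆ R, ∀ S' ⊆ R, ((R \ S).card : ℤ) + ∑ j, r j (A j ∪ S) ≤ K - 1 →
          ((R \ S').card : ℤ) + ∑ j, r j (A j ∪ S') ≤ K - 1 →
          ((R \ (S ∪ S')).card : ℤ) + ∑ j, r j (A j ∪ (S ∪ S')) ≤ K - 1 := by
        intro S hS S' hS' h1 h2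
        have h3 := hlow (S ∩ S') (inter_subset_left.trans hS)
        have h4 : ((R \ (S ∪ S')).card : ℤ) + ((R \ (S ∩ S')).card : ℤ) =
            ((R \ S).card : ℤ) + ((R \ S').card : ℤ) := by
          have e1 : R \ (S ∪ S') = (R \ S) ∩ (R \ S') := by
            ext y; simp only [mem_sdiff, mem_union, mem_inter]; tauto
          have e2 : R \ (S ∩ S') = (R \ S) ∪ (R \ S') := by
            ext y; simp only [mem_sdiff, mem_union, mem_inter]; tauto
          have := card_union_add_card_inter (R \ S) (R \ S')
          rw [e1, e2]
          omega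
        have h5 : ∑ j, r j (A j ∪ (S ∪ S')) + ∑ j, r j (A j ∪ (S ∩ S')) ≤
            ∑ j, r j (A j ∪ S) + ∑ j, r j (A j ∪ S') := by
          rw [← sum_add_distrib, ← sum_add_distrib]
          refine sum_le_sum fun j _ => ?_
          have := hsub j (A j ∪ S) (A j ∪ S') (union_subset (hAD j) (hS.trans hRD'))
            (union_subset (hAD j) (hS'.trans hRD'))
          have e1 : A j ∪ S ∪ (A j ∪ S') = A j ∪ (S ∪ S') := by
            ext y; simp only [mem_union]; tauto
          have e2 : (A j ∪ S) ∩ (A j ∪ S') = A j ∪ (S ∩ S') := by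
            ext y; simp only [mem_union, mem_inter]; tauto
          rwa [e1, e2] at this
        linarith
      set U : Finset β := T 0 ∪ T 1 ∪ T 2 with hU
      have hU01 := hun (T 0) (hT 0) (T 1) (hT 1) (htight 0) (htight 1)
      have hU2 := hun (T 0 ∪ T 1) (union_subset (hT 0) (hT 1)) (T 2) (hT 2) hU01 (htight 2)
      have hUR : U ⊆ R := union_subset (union_subset (hT 0) (hT 1)) (hT 2)
      have hTU : ∀ i, T i ⊆ U := by
        intro i
        fin_cases i
        · exact subset_union_left.trans subset_union_left
        · exact subset_union_right.trans subset_union_left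
        · exact subset_union_right
      have hspanU : ∀ i, r i (A i ∪ insert x U) ≤ r i (A i ∪ U) := by
        intro i
        have h1 := hsub i (insert x (A i) ∪ T i) (A i ∪ U)
          (union_subset (insert_subset hxD (hAD i)) ((hT i).trans hRD'))
          (union_subset (hAD i) (hUR.trans hRD'))
        have e1 : insert x (A i) ∪ T i ∪ (A i ∪ U) = A i ∪ insert x U := by
          ext y
          simp only [mem_union, mem_insert]
          constructor
          · rintro (((h | h) | h) | (h | h))
            · exact Or.inr (Or.inl h)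
            · exact Or.inl h
            · exact Or.inr (Or.inr (hTU i h))
            · exact Or.inl h
            · exact Or.inr (Or.inr h)
          · rintro (h | h | h)
            · exact Or.inr (Or.inl h)
            · exact Or.inl (Or.inl (Or.inl h))
            · exact Or.inr (Or.inr h)
        rw [e1] at h1
        have h2 : r i (A i ∪ T i) ≤ r i ((insert x (A i) ∪ T i) ∩ (A i ∪ U)) := by
          apply hmono
          · apply subset_inter
            · exact union_subset_union_left (subset_insert _ _)
            · exact union_subset_union_right (hTU i)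
          · exact inter_subset_right.trans (union_subset (hAD i) (hUR.trans hRD'))
        have h3 := hspan i
        linarith
      have h1 := hK (insert x U) (insert_subset_insert _ hUR)
      have h2 : insert x R \ insert x U = R \ U := by
        ext y
        simp only [mem_sdiff, mem_insert]
        constructor
        · rintro ⟨h | h, h'⟩
          · exact absurd (Or.inl h) h'
          · exact ⟨h, fun hh => h' (Or.inr hh)⟩
        · rintro ⟨h, h'⟩
          refine ⟨Or.inr h, ?_⟩
          rintro (rfl | hh)
          · exact hxR h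
          · exact h' hh
      rw [h2] at h1
      have h3 : ∑ i, r i (A i ∪ insert x U) ≤ ∑ i, r i (A i ∪ U) :=
        sum_le_sum fun i _ => hspanU i
      linarith
    obtain ⟨i, hi⟩ := key
    obtain ⟨A', h1, h2, h3, h4, h5⟩ := ih (fun j => if j = i then insert x (A j) else A j) hRD'
      (by
        intro j
        split_ifs
        · exact insert_subset hxD (hAD j)
        · exact hAD j)
      (by
        intro j
        have h1 : Disjoint (A j) R := (hAR j).mono_right (subset_insert _ _)
        split_ifs
        · rw [disjoint_insert_left]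
          exact ⟨hxR, h1⟩
        · exact h1)
      (by
        intro j k hjk
        split_ifs with h1 h2 h2
        · exact absurd (h1.trans h2.symm) hjk
        · rw [disjoint_insert_left]
          exact ⟨hxA k, hd j k hjk⟩
        · rw [disjoint_insert_right]
          exact ⟨hxA j, hd j k hjk⟩
        · exact hd j k hjk)
      hi
    refine ⟨A', ?_, ?_, h3, ?_, h5⟩
    · intro j
      refine subset_trans ?_ (h1 j)
      split_ifs
      · exact subset_insert _ _
      · exact subset_rfl
    · intro j
      refine (h2 j).trans ?_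
      split_ifs
      · intro y hy
        simp only [mem_union, mem_insert] at hy ⊢
        tauto
      · exact union_subset_union_right (subset_insert _ _)
    · intro y hy
      rcases mem_insert.1 hy with rfl | hy
      · refine ⟨i, h1 i ?_⟩
        rw [if_pos rfl]
        exact mem_insert_self _ _
      · exact h4 y hy

theorem pack (D : Finset β) (r : Fin 3 → Finset β → ℤ)
    (hmono : ∀ i S T, S ⊆ T → T ⊆ D → r i S ≤ r i T)
    (hsub : ∀ i S T, S ⊆ D → T ⊆ D → r i (S ∪ T) + r i (S ∩ T) ≤ r i S + r i T) (K : ℤ)
    (hK : ∀ T ⊆ D, K ≤ ((D \ T).card : ℤ) + ∑ i, r i T) :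
    ∃ A : Fin 3 → Finset β, (∀ i, A i ⊆ D) ∧
      (∀ i j, i ≠ j → Disjoint (A i) (A j)) ∧ (∀ x ∈ D, ∃ i, x ∈ A i) ∧
      K ≤ ∑ i, r i (A i) := by
  obtain ⟨A, _, h2, h3, h4, h5⟩ := pack_aux D r hmono hsub K D (fun _ => ∅) subset_rfl
    (fun _ => empty_subset _) (fun _ => disjoint_empty_left _) (fun _ _ _ => disjoint_empty_left _)
    (by simpa using hK)
  exact ⟨A, fun i => by simpa using h2 i, h3, h4, h5⟩

end Pool.Agent.Q107.Tri
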