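import Pool.Agent.Q107.Tri.IneqC
import Pool.Agent.Q107.Tri.Pack

/-!
The partition theorem for labelled pairs.
-/

namespace Pool.Agent.Q107.Tri

open Finset

set_option linter.unusedSectionVars false

variable {α V : Type*} [DecidableEq α] [DecidableEq V]
variable {en : α → Finset V} {u v : V} {e : α}

/-- first coordinates -/
def pj (T : Finset (α × Bool)) : Finset α := T.image Prod.fst

theorem pj_union (S T : Finset (α × Bool)) : pj (S ∪ T) = pj S ∪ pj T := image_union _ _

theorem pj_mono {S T : Finset (α × Bool)} (h : S ⊆ T) : pj S ⊆ pj T := image_subset_image h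

theorem mem_pj {T : Finset (α × Bool)} {a : α} : a ∈ pj T ↔ ∃ b, (a, b) ∈ T := by
  unfold pj
  rw [mem_image]
  constructor
  · rintro ⟨⟨x, b⟩, h, rfl⟩
    exact ⟨b, h⟩
  · rintro ⟨b, h⟩
    exact ⟨(a, b), h, rfl⟩

theorem card_le_pj (T : Finset (α × Bool)) : T.card ≤ 2 * (pj T).card := by
  have h : T ⊆ pj T ×ˢ (univ : Finset Bool) := by
    rintro ⟨a, b⟩ hx
    rw [mem_product]
    exact ⟨mem_pj.2 ⟨b, hx⟩, mem_univ _⟩
  have := card_le_card h
  rw [card_product] at this
  simp only [Finset.card_univ, Fintype.card_bool] at this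
  omega

theorem Ctx.partition [Fintype α] [Fintype V] (h : Ctx en u v e) (hn : 4 ≤ Fintype.card V)
    (hc : Fintype.card α + 6 = 3 * Fintype.card V) :
    ∃ P1 P2 P3 : Finset α, Disjoint P1 P2 ∧ Disjoint P1 P3 ∧ Disjoint P2 P3 ∧
      P1 ∪ P2 ∪ P3 = univ ∧ e ∈ P1 ∧
      P1.card + 1 = Fintype.card V ∧ P2.card + 2 = Fintype.card V ∧
      P3.card + 3 = Fintype.card V ∧
      Sp en (P1 ∪ P2) ∧ Sp (ctr en u v) ((P1 ∪ P3).erase e) ∧ Sp (ctr en u v) (P2 ∪ P3) := by
  classical
  set en' := ctr en u v with hen'
  set E : Finset α := univ.erase e with hE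
  set D : Finset (α × Bool) := E ×ˢ (univ : Finset Bool) with hD
  have hDc : D.card = 2 * E.card := by
    rw [hD, card_product]
    simp only [Finset.card_univ, Fintype.card_bool]
    ring
  have hEc : E.card + 1 = Fintype.card α := by
    rw [hE, card_erase_add_one (mem_univ e), Finset.card_univ]
  have hpD : ∀ T ⊆ D, e ∉ pj T := by
    intro T hT he
    obtain ⟨b, hb⟩ := mem_pj.1 he
    have := hT hb
    rw [hD, mem_product, hE, mem_erase] at this
    exact this.1.1 rfl
  let r : Fin 3 → Finset (α × Bool) → ℤ := fun i T =>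
    if i = 0 then (rk en (insert e (pj T)) : ℤ) else (rk en' (pj T) : ℤ)
  have r0 : ∀ T, r 0 T = (rk en (insert e (pj T)) : ℤ) := fun T => if_pos rfl
  have r1 : ∀ T, r 1 T = (rk en' (pj T) : ℤ) := fun T => if_neg (by decide)
  have r2 : ∀ T, r 2 T = (rk en' (pj T) : ℤ) := fun T => if_neg (by decide)
  obtain ⟨A, hAD, hAd, hAc, hAK⟩ := pack D r
    (by
      intro i S T hST _
      simp only [r]
      split_ifs
      · exact_mod_cast rk_mono (insert_subset_insert _ (pj_mono hST))
      · exact_mod_cast rk_mono (pj_mono hST))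
    (by
      intro i S T hS hT
      simp only [r]
      split_ifs
      · have h1 := rk_submod (en := en) (S := insert e (pj S)) (T := insert e (pj T)) (h.pr _)
        have h2 : rk en (insert e (pj (S ∩ T))) ≤ rk en (insert e (pj S) ∩ insert e (pj T)) :=
          rk_mono (subset_inter (insert_subset_insert _ (pj_mono inter_subset_left))
            (insert_subset_insert _ (pj_mono inter_subset_right)))
        have h3 : insert e (pj (S ∪ T)) = insert e (pj S) ∪ insert e (pj T) := by
          rw [pj_union]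
          ext x; simp only [mem_union, mem_insert]; tauto
        rw [h3]
        exact_mod_cast (Nat.add_le_add_left h2 _).trans h1
      · have h1 := rk_submod (en := en') (S := pj S) (T := pj T) (h.pr' (by
          rw [← pj_union]
          exact hpD _ (union_subset hS hT)))
        have h2 : rk en' (pj (S ∩ T)) ≤ rk en' (pj S ∩ pj T) :=
          rk_mono (subset_inter (pj_mono inter_subset_left) (pj_mono inter_subset_right))
        rw [pj_union]
        exact_mod_cast (Nat.add_le_add_left h2 _).trans h1)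
    (D.card + 1)
    (by
      intro T hT
      have h1 := h.ineq _ (pj T) rfl (hpD T hT)
      rw [← hen'] at h1
      have h2 := card_le_pj T
      have h3 := card_sdiff_add_card_eq_card hT
      rw [Fin.sum_univ_three, r0, r1, r2]
      omega)
  rw [Fin.sum_univ_three, r0, r1, r2] at hAK
  have hAK' : D.card + 1 ≤ rk en (insert e (pj (A 0))) + rk en' (pj (A 1)) + rk en' (pj (A 2)) := by
    exact_mod_cast hAK
  have hAcard : (A 0).card + (A 1).card + (A 2).card = D.card := by
    rw [← card_union_of_disjoint (hAd 0 1 (by decide)), ← card_union_of_disjoint]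
    · congr 1
      apply subset_antisymm
      · exact union_subset (union_subset (hAD 0) (hAD 1)) (hAD 2)
      · intro x hx
        obtain ⟨i, hi⟩ := hAc x hx
        fin_cases i
        · exact mem_union_left _ (mem_union_left _ hi)
        · exact mem_union_left _ (mem_union_right _ hi)
        · exact mem_union_right _ hi
    · rw [disjoint_union_left]
      exact ⟨hAd 0 2 (by decide), hAd 1 2 (by decide)⟩
  have hB : ∀ i, (pj (A i)).card ≤ (A i).card := fun i => card_image_le
  have heB : ∀ i, e ∉ pj (A i) := fun i => hpD _ (hAD i)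
  have hins : (insert e (pj (A 0))).card = (pj (A 0)).card + 1 := card_insert_of_notMem (heB 0)
  have k0 := rk_le_card (en := en) (insert e (pj (A 0)))
  have k1 := rk_le_card (en := en') (pj (A 1))
  have k2 := rk_le_card (en := en') (pj (A 2))
  have b0 := hB 0
  have b1 := hB 1
  have b2 := hB 2
  have sp0 : Sp en (insert e (pj (A 0))) := sp_of_rk (by omega)
  have sp1 : Sp en' (pj (A 1)) := sp_of_rk (by omega)
  have sp2 : Sp en' (pj (A 2)) := sp_of_rk (by omega)
  have hinj : ∀ i, Set.InjOn Prod.fst (A i : Set (α × Bool)) := by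
    intro i
    apply injOn_of_card_image_eq
    show (pj (A i)).card = (A i).card
    fin_cases i
    · show (pj (A 0)).card = (A 0).card
      omega
    · show (pj (A 1)).card = (A 1).card
      omega
    · show (pj (A 2)).card = (A 2).card
      omega
  -- upper bounds for the ranks
  have u0 : rk en (insert e (pj (A 0))) + 3 ≤ 2 * Fintype.card V := by
    have := rk_le_of_inside (en := en) (T := insert e (pj (A 0))) (X := (univ : Finset V))
      (by rw [Finset.card_univ]; omega) (fun a _ => subset_univ _)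
    rwa [Finset.card_univ] at this
  have hev : ((univ : Finset V).erase v).card + 1 = Fintype.card V := by
    rw [card_erase_add_one (mem_univ v), Finset.card_univ]
  have hin' : ∀ a : α, en' a ⊆ (univ : Finset V).erase v := by
    intro a w hw
    obtain ⟨x, hx, rfl⟩ := mem_image.1 hw
    rw [mem_erase]
    refine ⟨?_, mem_univ _⟩
    unfold cm
    split_ifs with hxv
    · exact h.huv
    · exact hxv
  have u1 : rk en' (pj (A 1)) + 5 ≤ 2 * Fintype.card V := by
    have := rk_le_of_inside (en := en') (T := pj (A 1)) (X := (univ : Finset V).erase v)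
      (by omega) (fun a _ => hin' a)
    omega
  have u2 : rk en' (pj (A 2)) + 5 ≤ 2 * Fintype.card V := by
    have := rk_le_of_inside (en := en') (T := pj (A 2)) (X := (univ : Finset V).erase v)
      (by omega) (fun a _ => hin' a)
    omega
  -- every element is in exactly two of the sets
  have hno3 : ∀ a, ¬ (a ∈ pj (A 0) ∧ a ∈ pj (A 1) ∧ a ∈ pj (A 2)) := by
    rintro a ⟨h0, h1, h2⟩
    obtain ⟨x, hx⟩ := mem_pj.1 h0
    obtain ⟨y, hy⟩ := mem_pj.1 h1
    obtain ⟨z, hz⟩ := mem_pj.1 h2
    have d01 : x ≠ y := by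
      rintro rfl
      exact (disjoint_left.1 (hAd 0 1 (by decide))) hx hy
    have d02 : x ≠ z := by
      rintro rfl
      exact (disjoint_left.1 (hAd 0 2 (by decide))) hx hz
    have d12 : y ≠ z := by
      rintro rfl
      exact (disjoint_left.1 (hAd 1 2 (by decide))) hy hz
    cases x <;> cases y <;> cases z <;> simp at d01 d02 d12
  have htwo : ∀ a, a ≠ e → ∃ i j, i ≠ j ∧ a ∈ pj (A i) ∧ a ∈ pj (A j) := by
    intro a ha
    have hD' : ∀ b, (a, b) ∈ D := by
      intro b
      rw [hD, mem_product, hE, mem_erase]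
      exact ⟨⟨ha, mem_univ _⟩, mem_univ _⟩
    obtain ⟨i, hi⟩ := hAc _ (hD' false)
    obtain ⟨j, hj⟩ := hAc _ (hD' true)
    refine ⟨i, j, ?_, mem_pj.2 ⟨_, hi⟩, mem_pj.2 ⟨_, hj⟩⟩
    rintro rfl
    have := hinj i hi hj rfl
    simp at this
  have hcase : ∀ a, a ≠ e → (a ∈ pj (A 0) ∧ a ∈ pj (A 1)) ∨ (a ∈ pj (A 0) ∧ a ∈ pj (A 2)) ∨
      (a ∈ pj (A 1) ∧ a ∈ pj (A 2)) := by
    intro a ha
    obtain ⟨i, j, hij, hi, hj⟩ := htwo a ha
    fin_cases i <;> fin_cases j <;> simp at hij hi hj ⊢ <;> tauto
  set B0 := pj (A 0) with hB0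
  set B1 := pj (A 1) with hB1
  set B2 := pj (A 2) with hB2
  have e0 := heB 0
  have e1 := heB 1
  have e2 := heB 2
  rw [← hB0] at e0
  rw [← hB1] at e1
  rw [← hB2] at e2
  have dis12 : Disjoint (B0 ∩ B1) (B0 ∩ B2) := by
    rw [disjoint_left]
    intro a ha hb
    rw [mem_inter] at ha hb
    exact hno3 a ⟨ha.1, ha.2, hb.2⟩
  have dis13 : Disjoint (B0 ∩ B1) (B1 ∩ B2) := by
    rw [disjoint_left]
    intro a ha hb
    rw [mem_inter] at ha hb
    exact hno3 a ⟨ha.1, ha.2, hb.2⟩
  have dis23 : Disjoint (B0 ∩ B2) (B1 ∩ B2) := by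
    rw [disjoint_left]
    intro a ha hb
    rw [mem_inter] at ha hb
    exact hno3 a ⟨ha.1, hb.1, hb.2⟩
  have c0 : (B0 ∩ B1).card + (B0 ∩ B2).card = B0.card := by
    rw [← card_union_of_disjoint dis12]
    congr 1
    ext a
    simp only [mem_union, mem_inter]
    constructor
    · rintro (hh | hh)
      · exact hh.1
      · exact hh.1
    · intro hh
      have hae : a ≠ e := fun h' => e0 (h' ▸ hh)
      have := hcase a hae
      have := hno3 a
      tauto
  have c1 : (B0 ∩ B1).card + (B1 ∩ B2).card = B1.card := by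
    rw [← card_union_of_disjoint dis13]
    congr 1
    ext a
    simp only [mem_union, mem_inter]
    constructor
    · rintro (hh | hh)
      · exact hh.2
      · exact hh.1
    · intro hh
      have hae : a ≠ e := fun h' => e1 (h' ▸ hh)
      have := hcase a hae
      have := hno3 a
      tauto
  have c2 : (B0 ∩ B2).card + (B1 ∩ B2).card = B2.card := by
    rw [← card_union_of_disjoint dis23]
    congr 1
    ext a
    simp only [mem_union, mem_inter]
    constructor
    · rintro (hh | hh)
      · exact hh.2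
      · exact hh.2
    · intro hh
      have hae : a ≠ e := fun h' => e2 (h' ▸ hh)
      have := hcase a hae
      have := hno3 a
      tauto
  have ci : (insert e (B0 ∩ B1)).card = (B0 ∩ B1).card + 1 :=
    card_insert_of_notMem (fun hh => e0 (mem_inter.1 hh).1)
  refine ⟨insert e (B0 ∩ B1), B0 ∩ B2, B1 ∩ B2, ?_, ?_, dis23, ?_, mem_insert_self _ _, ?_, ?_, ?_,
    ?_, ?_, ?_⟩
  · rw [disjoint_insert_left]
    exact ⟨fun hh => e0 (mem_inter.1 hh).1, dis12⟩
  · rw [disjoint_insert_left]
    exact ⟨fun hh => e1 (mem_inter.1 hh).1, dis13⟩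
  · ext a
    simp only [mem_union, mem_insert, mem_inter, mem_univ, iff_true]
    by_cases hae : a = e
    · exact Or.inl (Or.inl (Or.inl hae))
    · have := hcase a hae
      tauto
  · omega
  · omega
  · omega
  · refine sp0.mono ?_
    intro a
    simp only [mem_union, mem_insert, mem_inter]
    tauto
  · refine sp1.mono ?_
    intro a
    simp only [mem_union, mem_insert, mem_inter, mem_erase]
    tauto
  · refine sp2.mono ?_
    intro a
    simp only [mem_union, mem_inter]
    tauto

end Pool.Agent.Q107.Tri
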